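import Mathlib

set_option autoImplicit false

/-!
Increasing real-analytic bijections of the line: discreteness of fixed point sets and
elementary dynamics of order preserving bijections.
-/

namespace Pool.Agent.Helper43.Tits

open Set Filter Topology

/-- An increasing real-analytic bijection of the line. -/
def An (f : Equiv.Perm ℝ) : Prop := AnalyticOnNhd ℝ (⇑f) univ ∧ StrictMono f

/-- A group of increasing real-analytic bijections of the line. -/
def AnGrp (G : Subgroup (Equiv.Perm ℝ)) : Prop := ∀ f ∈ G, An f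

/-- A subset of the line without accumulation points. -/
def Disc (F : Set ℝ) : Prop := ∀ x : ℝ, ∃ ε > 0, ∀ y ∈ F, |y - x| < ε → y = x

theorem An.cont {f : Equiv.Perm ℝ} (hf : An f) : Continuous f :=
  continuous_iff_continuousAt.2 fun x => (hf.1 x (mem_univ x)).continuousAt

theorem disc_fix {f : Equiv.Perm ℝ} (hf : An f) (h1 : f ≠ 1) : Disc {x | f x = x} := by
  intro x
  by_contra hcon
  push Not at hcon
  apply h1
  have hfr : ∃ᶠ z in 𝓝[≠] x, f z = (fun y : ℝ => y) z := by
    rw [frequently_iff]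
    intro U hU
    rw [mem_nhdsWithin] at hU
    obtain ⟨V, hVo, hxV, hV⟩ := hU
    obtain ⟨ε, hε, hball⟩ := Metric.isOpen_iff.1 hVo x hxV
    obtain ⟨y, hy, hyx, hne⟩ := hcon ε hε
    refine ⟨y, hV ⟨hball ?_, hne⟩, hy⟩
    rw [Metric.mem_ball, Real.dist_eq]
    exact hyx
  have := AnalyticOnNhd.eq_of_frequently_eq hf.1 analyticOnNhd_id hfr
  ext y
  exact congrFun this y

theorem disc_no_mono {F : Set ℝ} (hF : Disc F) (u : ℕ → ℝ) (hu : ∀ n, u n ∈ F)
    (hm : StrictMono u) (b : ℝ) (hb : ∀ n, u n ≤ b) : False := by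
  have hbd : BddAbove (range u) := ⟨b, by rintro _ ⟨n, rfl⟩; exact hb n⟩
  have ht := tendsto_atTop_ciSup hm.monotone hbd
  obtain ⟨ε, hε, hx⟩ := hF (⨆ i, u i)
  rw [Metric.tendsto_atTop] at ht
  obtain ⟨N, hN⟩ := ht ε hε
  have h1 := hx (u N) (hu N) (by simpa [Real.dist_eq] using hN N le_rfl)
  have h2 := hx (u (N + 1)) (hu _) (by simpa [Real.dist_eq] using hN (N + 1) (Nat.le_succ N))
  have h3 := hm (Nat.lt_succ_self N)
  simp only [Nat.succ_eq_add_one] at h3
  rw [h1, h2] at h3
  exact lt_irrefl _ h3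

theorem disc_no_anti {F : Set ℝ} (hF : Disc F) (u : ℕ → ℝ) (hu : ∀ n, u n ∈ F)
    (hm : StrictAnti u) (b : ℝ) (hb : ∀ n, b ≤ u n) : False := by
  have hbd : BddBelow (range u) := ⟨b, by rintro _ ⟨n, rfl⟩; exact hb n⟩
  have ht := tendsto_atTop_ciInf hm.antitone hbd
  obtain ⟨ε, hε, hx⟩ := hF (⨅ i, u i)
  rw [Metric.tendsto_atTop] at ht
  obtain ⟨N, hN⟩ := ht ε hε
  have h1 := hx (u N) (hu N) (by simpa [Real.dist_eq] using hN N le_rfl)
  have h2 := hx (u (N + 1)) (hu _) (by simpa [Real.dist_eq] using hN (N + 1) (Nat.le_succ N))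
  have h3 := hm (Nat.lt_succ_self N)
  simp only [Nat.succ_eq_add_one] at h3
  rw [h1, h2] at h3
  exact lt_irrefl _ h3

theorem pow_apply_succ (f : Equiv.Perm ℝ) (n : ℕ) (x : ℝ) :
    (f ^ (n + 1)) x = f ((f ^ n) x) := by
  rw [pow_succ', Equiv.Perm.mul_apply]

theorem iter_strictMono {f : Equiv.Perm ℝ} (hf : StrictMono f) {x : ℝ} (hx : x < f x) :
    StrictMono (fun n : ℕ => (f ^ n) x) := by
  apply strictMono_nat_of_lt_succ
  intro n
  induction n with
  | zero => simpa using hx
  | succ n ih =>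
    rw [pow_apply_succ f (n + 1)]
    conv_lhs => rw [pow_apply_succ]
    exact hf ih

theorem iter_strictAnti {f : Equiv.Perm ℝ} (hf : StrictMono f) {x : ℝ} (hx : f x < x) :
    StrictAnti (fun n : ℕ => (f ^ n) x) := by
  apply strictAnti_nat_of_succ_lt
  intro n
  induction n with
  | zero => simpa using hx
  | succ n ih =>
    rw [pow_apply_succ f (n + 1)]
    conv_rhs => rw [pow_apply_succ]
    exact hf ih

theorem inv_strictMono {f : Equiv.Perm ℝ} (hf : StrictMono f) : StrictMono (⇑(f⁻¹)) := by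
  intro x y hxy
  by_contra h
  have := hf.monotone (not_lt.1 h)
  rw [← Equiv.Perm.mul_apply, ← Equiv.Perm.mul_apply, mul_inv_cancel] at this
  simp only [Equiv.Perm.one_apply] at this
  exact absurd hxy (not_lt.2 this)

theorem pow_strictMono {f : Equiv.Perm ℝ} (hf : StrictMono f) (n : ℕ) :
    StrictMono (⇑(f ^ n)) := by
  induction n with
  | zero => simpa using strictMono_id
  | succ n ih =>
    intro x y hxy
    rw [pow_apply_succ, pow_apply_succ]
    exact hf (ih hxy)

theorem pow_fix {f : Equiv.Perm ℝ} {q : ℝ} (hq : f q = q) (n : ℕ) : (f ^ n) q = q := by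
  induction n with
  | zero => simp
  | succ n ih => rw [pow_apply_succ, ih, hq]

theorem inv_fix {f : Equiv.Perm ℝ} {q : ℝ} (hq : f q = q) : f⁻¹ q = q := by
  rw [Equiv.Perm.inv_eq_iff_eq, hq]

theorem pow_mem_of_inv {F : Set ℝ} {f : Equiv.Perm ℝ} (h : ∀ y ∈ F, f y ∈ F) {p : ℝ}
    (hp : p ∈ F) (n : ℕ) : (f ^ n) p ∈ F := by
  induction n with
  | zero => simpa using hp
  | succ n ih => rw [pow_apply_succ]; exact h _ ih

/-- An increasing bijection with a fixed point preserving a discrete set fixes it pointwise. -/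
theorem fix_of_inv {F : Set ℝ} (hF : Disc F) {f : Equiv.Perm ℝ} (hf : StrictMono f)
    (h1 : ∀ y ∈ F, f y ∈ F) (h2 : ∀ y ∈ F, f⁻¹ y ∈ F) {q : ℝ} (hq : f q = q) {p : ℝ}
    (hp : p ∈ F) : f p = p := by
  have key : ∀ g : Equiv.Perm ℝ, StrictMono g → (∀ y ∈ F, g y ∈ F) → g q = q →
      ¬ (p < g p ∧ p < q) ∧ ¬ (g p < p ∧ q < p) := by
    intro g hg hgF hgq
    refine ⟨fun ⟨h3, h4⟩ => ?_, fun ⟨h3, h4⟩ => ?_⟩
    · refine disc_no_mono hF _ (fun n => pow_mem_of_inv hgF hp n) (iter_strictMono hg h3) q ?_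
      intro n
      have := (pow_strictMono hg n).monotone h4.le
      rwa [pow_fix hgq] at this
    · refine disc_no_anti hF _ (fun n => pow_mem_of_inv hgF hp n) (iter_strictAnti hg h3) q ?_
      intro n
      have := (pow_strictMono hg n).monotone h4.le
      rwa [pow_fix hgq] at this
  by_contra hne
  have hinv := inv_strictMono hf
  have k1 := key f hf h1 hq
  have k2 := key f⁻¹ hinv h2 (inv_fix hq)
  have hpq : p ≠ q := fun h => hne (h ▸ hq)
  rcases lt_or_gt_of_ne hne with h | h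
  · -- f p < p, so p < f⁻¹ p
    have h' : p < f⁻¹ p := by
      have := hinv h
      simpa using this
    rcases lt_or_gt_of_ne hpq with h3 | h3
    · exact k2.1 ⟨h', h3⟩
    · exact k1.2 ⟨h, h3⟩
  · have h' : f⁻¹ p < p := by
      have := hinv h
      simpa using this
    rcases lt_or_gt_of_ne hpq with h3 | h3
    · exact k1.1 ⟨h, h3⟩
    · exact k2.2 ⟨h', h3⟩

/-- constant sign on an interval without fixed points -/
theorem sign_const {f : Equiv.Perm ℝ} (hf : Continuous f) {x y : ℝ}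
    (h : ∀ z ∈ uIcc x y, f z ≠ z) : (x < f x ↔ y < f y) := by
  have hc : ContinuousOn (fun z => f z - z) (uIcc x y) :=
    (hf.sub continuous_id).continuousOn
  have him := intermediate_value_uIcc hc
  have h0 : (0 : ℝ) ∉ uIcc (f x - x) (f y - y) := by
    intro h0
    obtain ⟨z, hz, hz0⟩ := him h0
    exact h z hz (by simpa [sub_eq_zero] using hz0)
  rw [mem_uIcc] at h0
  push Not at h0
  have hx := h x left_mem_uIcc
  have hy := h y right_mem_uIcc
  constructor
  · intro h3
    by_contra h4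
    have h5 : f y - y ≤ 0 := by linarith
    exact absurd (h0.2 h5) (by push Not; linarith)
  · intro h3
    by_contra h4
    have h5 : f x - x ≤ 0 := by linarith
    exact absurd (h0.1 h5) (by push Not; linarith)

theorem ap_inv (f : Equiv.Perm ℝ) (x : ℝ) : f (f⁻¹ x) = x := by
  rw [← Equiv.Perm.mul_apply, mul_inv_cancel, Equiv.Perm.one_apply]

theorem inv_ap (f : Equiv.Perm ℝ) (x : ℝ) : f⁻¹ (f x) = x := by
  rw [← Equiv.Perm.mul_apply, inv_mul_cancel, Equiv.Perm.one_apply]

theorem one_mem_An : An 1 := ⟨by simpa using! analyticOnNhd_id, by simpa using strictMono_id⟩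

end Pool.Agent.Helper43.Tits
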