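import Pool.Agent.Helper43.Tits.Tprime

set_option autoImplicit false

/-!
Case 1: some non-trivial element of the abelian normal subgroup has a fixed point.
-/

namespace Pool.Agent.Helper43.Tits

open Set Filter Topology

/-- Proportionality of the leading coefficient under conjugation. -/
theorem scale_exists {G A : Subgroup (Equiv.Perm ℝ)} (hG : AnGrp G) (hAG : A ≤ G)
    (hnorm : ∀ g ∈ G, ∀ a ∈ A, g * a * g⁻¹ ∈ A) (hcomm : ∀ a ∈ A, ∀ b ∈ A, a * b = b * a)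
    {F : Set ℝ} {p : ℝ} (hp : p ∈ F) (hF : ∀ a ∈ A, a p = p → a ≠ 1 → ∀ x, a x = x ↔ x ∈ F)
    (hinv : ∀ g ∈ G, ∀ y ∈ F, g y ∈ F) {r : ℕ}
    (hd : ∀ a ∈ A, a p = p → deriv a p = 1)
    {φ : Equiv.Perm ℝ → ℝ} (hφ : ∀ a ∈ A, a p = p → Lead a p r (φ a))
    (hφ1 : ∀ a ∈ A, a p = p → a ≠ 1 → φ a ≠ 0)
    {n0 : Equiv.Perm ℝ} (hn0 : n0 ∈ A) (hn0p : n0 p = p) (hn01 : n0 ≠ 1)
    {T : Equiv.Perm ℝ} (hT : T ∈ G) :
    ∃ C : ℝ, ∀ a ∈ A, a p = p → φ (T * a * T⁻¹) = C * φ a := by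
  -- conjugates stay in the stabiliser
  have hfixT : ∀ S ∈ G, ∀ a ∈ A, a p = p → (S * a * S⁻¹) p = p := by
    intro S hS a ha hap
    by_cases h1 : a = 1
    · subst h1; simp
    · have h2 := hinv S⁻¹ (G.inv_mem hS) p hp
      have h3 := (hF a ha hap h1 (S⁻¹ p)).2 h2
      rw [Equiv.Perm.mul_apply, Equiv.Perm.mul_apply, h3, ap_inv]
  have hφ0 : φ 1 = 0 := (hφ 1 A.one_mem (by simp)).unique (lead_id p r)
  have hadd : ∀ a ∈ A, a p = p → ∀ b ∈ A, b p = p → φ (a * b) = φ a + φ b := by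
    intro a ha hap b hb hbp
    have h1 := lead_mul (hG b (hAG hb)) hbp (hd b hb hbp) (hφ a ha hap) (hφ b hb hbp)
    exact (hφ (a * b) (A.mul_mem ha hb) (by rw [Equiv.Perm.mul_apply, hbp, hap])).unique h1
  -- sign lemma
  have hsign : ∀ a ∈ A, a p = p → a ≠ 1 → ∀ b ∈ A, b p = p → b ≠ 1 → ∀ x, x ∉ F →
      (0 < φ a * φ b ↔ 0 < (a x - x) * (b x - x)) := by
    intro a ha hap ha1 b hb hbp hb1 x hx
    have hanA : ∀ g ∈ A, An g := fun g hg => hG g (hAG hg)
    have hl := (hφ a ha hap).mul (hφ b hb hbp)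
    have hne := mul_ne_zero (hφ1 a ha hap ha1) (hφ1 b hb hbp hb1)
    have hsq : ∀ y : ℝ, y ≠ p → 0 < (y - p) ^ r * (y - p) ^ r := fun y hy =>
      mul_self_pos.2 (pow_ne_zero _ (sub_ne_zero.2 hy))
    have hxx : a x ≠ x := fun h => hx ((hF a ha hap ha1 x).1 h)
    have hdis : ∀ᶠ y in 𝓝[≠] p, a y ≠ y := by
      obtain ⟨ε, hε, hball⟩ := disc_fix (hanA a ha) ha1 p
      rw [eventually_nhdsWithin_iff]
      filter_upwards [Metric.ball_mem_nhds p hε] with y hy hyp hay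
      exact hyp (hball y hay (by simpa [Real.dist_eq] using hy))
    rcases sign_consistent (hanA a ha) (hanA _ (A.inv_mem ha)) (hanA b hb)
      (hanA _ (A.inv_mem hb)) (hanA _ (A.mul_mem hb ha)) (hanA _ (A.inv_mem (A.mul_mem hb ha)))
      (hcomm a ha b hb) ha1 hb1 (fun y => by rw [hF a ha hap ha1, hF b hb hbp hb1]) with h | h
    · refine ⟨fun _ => h x hxx, fun _ => ?_⟩
      rcases lt_or_gt_of_ne hne with h3 | h3
      · exfalso
        obtain ⟨y, hy1, hy2, hy3⟩ := ((hl.eventually (gt_mem_nhds h3)).and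
          (hdis.and self_mem_nhdsWithin)).exists
        have h4 := h y hy2
        rw [div_mul_div_comm] at hy1
        have := div_pos h4 (hsq y hy3)
        linarith
      · exact h3
    · refine ⟨fun h3 => ?_, fun h3 => absurd (h x hxx) (not_lt.2 h3.le)⟩
      exfalso
      obtain ⟨y, hy1, hy2, hy3⟩ := ((hl.eventually (lt_mem_nhds h3)).and
          (hdis.and self_mem_nhdsWithin)).exists
      have h4 := h y hy2
      rw [div_mul_div_comm] at hy1
      have := div_neg_of_neg_of_pos h4 (hsq y hy3)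
      linarith
  -- the stabiliser as a group
  let A0 : Subgroup (Equiv.Perm ℝ) :=
    { carrier := {a | a ∈ A ∧ a p = p}
      mul_mem' := fun {a b} ha hb => ⟨A.mul_mem ha.1 hb.1, by
        rw [Equiv.Perm.mul_apply, hb.2, ha.2]⟩
      one_mem' := ⟨A.one_mem, by simp⟩
      inv_mem' := fun {a} ha => ⟨A.inv_mem ha.1, inv_fix ha.2⟩ }
  have memA0 : ∀ a : A0, (a : Equiv.Perm ℝ) ∈ A ∧ (a : Equiv.Perm ℝ) p = p := fun a => a.2
  set ε0 := φ n0 with hε0
  set ε1 := φ (T * n0 * T⁻¹) with hε1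
  have hε0' : ε0 ≠ 0 := hφ1 n0 hn0 hn0p hn01
  have hn01' : T * n0 * T⁻¹ ≠ 1 := fun h => hn01 (by
    have : n0 = T⁻¹ * (T * n0 * T⁻¹) * T := by group
    rw [this, h]; group)
  have hε1' : ε1 ≠ 0 := hφ1 _ (hnorm T hT n0 hn0) (hfixT T hT n0 hn0 hn0p) hn01'
  obtain ⟨x0, hx0⟩ : ∃ x0, x0 ∉ F := by
    by_contra hcon
    push Not at hcon
    exact hn01 (by ext x; exact (hF n0 hn0 hn0p hn01 x).2 (hcon x))
  have hpos : ∀ a : A0, 0 < ε0 * φ a ↔ 0 < ε1 * φ (T * a * T⁻¹) := by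
    intro a
    by_cases ha1 : (a : Equiv.Perm ℝ) = 1
    · rw [ha1]; simp [hφ0]
    have haT1 : T * (a : Equiv.Perm ℝ) * T⁻¹ ≠ 1 := fun h => ha1 (by
      have : (a : Equiv.Perm ℝ) = T⁻¹ * (T * a * T⁻¹) * T := by group
      rw [this, h]; group)
    have hTx : T x0 ∉ F := fun h => hx0 (by
      have := hinv T⁻¹ (G.inv_mem hT) _ h
      rwa [inv_ap] at this)
    rw [hε0, hε1, hsign n0 hn0 hn0p hn01 a (memA0 a).1 (memA0 a).2 ha1 x0 hx0,
      hsign _ (hnorm T hT n0 hn0) (hfixT T hT n0 hn0 hn0p) hn01' _ (hnorm T hT a (memA0 a).1)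
        (hfixT T hT a (memA0 a).1 (memA0 a).2) haT1 (T x0) hTx]
    simp only [Equiv.Perm.mul_apply, inv_ap]
    have hTm := (hG T hT).2
    have sg : ∀ y : ℝ, (0 < y - x0 ↔ 0 < T y - T x0) ∧ (y - x0 < 0 ↔ T y - T x0 < 0) := by
      intro y
      rw [sub_pos, sub_pos, sub_neg, sub_neg, hTm.lt_iff_lt, hTm.lt_iff_lt]
      exact ⟨Iff.rfl, Iff.rfl⟩
    rw [mul_pos_iff, mul_pos_iff, (sg _).1, (sg _).1, (sg _).2, (sg _).2]
  obtain ⟨C, hC, hCa⟩ := prop_of_pos (A := A0) (fun a => ε0 * φ a) (fun a => ε1 * φ (T * a * T⁻¹))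
    (by
      intro a b
      simp only [Subgroup.coe_mul]
      rw [hadd _ (memA0 a).1 (memA0 a).2 _ (memA0 b).1 (memA0 b).2]; ring)
    (by
      intro a b
      simp only [Subgroup.coe_mul]
      have : T * ((a : Equiv.Perm ℝ) * b) * T⁻¹ = (T * a * T⁻¹) * (T * b * T⁻¹) := by group
      rw [this, hadd _ (hnorm T hT a (memA0 a).1) (hfixT T hT a (memA0 a).1 (memA0 a).2) _
        (hnorm T hT b (memA0 b).1) (hfixT T hT b (memA0 b).1 (memA0 b).2)]; ring)
    hpos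
  refine ⟨C * ε0 / ε1, fun a ha hap => ?_⟩
  have := hCa ⟨a, ha, hap⟩
  simp only at this
  field_simp
  linarith

/-- Case 1 of the main theorem on abelian normal subgroups. -/
theorem case_fix {G A : Subgroup (Equiv.Perm ℝ)} (hG : AnGrp G) (hAG : A ≤ G)
    (hnorm : ∀ g ∈ G, ∀ a ∈ A, g * a * g⁻¹ ∈ A) (hcomm : ∀ a ∈ A, ∀ b ∈ A, a * b = b * a)
    {a0 : Equiv.Perm ℝ} (ha0 : a0 ∈ A) (ha01 : a0 ≠ 1) {p : ℝ} (ha0p : a0 p = p) : Metab G := by
  have hanA : ∀ g ∈ A, An g := fun g hg => hG g (hAG hg)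
  set F : Set ℝ := {x | a0 x = x} with hFdef
  have hpF : p ∈ F := ha0p
  have hFd : Disc F := disc_fix (hanA a0 ha0) ha01
  -- all elements of A with a fixed point have fixed point set F
  have hF' : ∀ a ∈ A, ∀ q, a q = q → a ≠ 1 → ∀ x, a x = x ↔ x ∈ F := by
    intro a ha q hq ha1 x
    constructor
    · intro hx
      exact commuting_fix (hanA a ha) (hanA a0 ha0).2 (hcomm a ha a0 ha0) ha1 ha0p hx
    · intro hx
      exact commuting_fix (hanA a0 ha0) (hanA a ha).2 (hcomm a0 ha0 a ha) ha01 hq hx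
  have hF : ∀ a ∈ A, a p = p → a ≠ 1 → ∀ x, a x = x ↔ x ∈ F := fun a ha hap => hF' a ha p hap
  have hinv : ∀ g ∈ G, ∀ y ∈ F, g y ∈ F := by
    intro g hg y hy
    have h1 : (g * a0 * g⁻¹) (g y) = g y := by
      simp only [Equiv.Perm.mul_apply, inv_ap]
      exact congrArg g hy
    have h2 : g * a0 * g⁻¹ ≠ 1 := fun h => ha01 (by
      have : a0 = g⁻¹ * (g * a0 * g⁻¹) * g := by group
      rw [this, h]; group)
    exact (hF' _ (hnorm g hg a0 ha0) (g y) h1 h2 (g y)).1 h1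
  have hfixG : ∀ g ∈ G, g p = p → ∀ q ∈ F, g q = q := by
    intro g hg hgp q hq
    exact fix_of_inv hFd (hG g hg).2 (hinv g hg) (hinv g⁻¹ (G.inv_mem hg)) hgp hq
  -- commutators fix p
  have hcfix : ∀ a ∈ G, ∀ b ∈ G, (a * b * a⁻¹ * b⁻¹) p = p := by
    intro a ha b hb
    have h1 := comm_on_disc hG hFd hinv ha hb
      (p := a⁻¹ (b⁻¹ p)) (hinv _ (G.inv_mem ha) _ (hinv _ (G.inv_mem hb) _ hpF))
    simp only [Equiv.Perm.mul_apply]
    rw [h1, ap_inv, ap_inv]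
  have hinvp : ∀ g : Equiv.Perm ℝ, g p = p → g⁻¹ p = p := fun g hg => inv_fix hg
  -- derivative of commutators of elements fixing p
  have hdconj : ∀ g ∈ G, g p = p → ∀ n ∈ G, n p = p → deriv (⇑(g * n * g⁻¹)) p = deriv n p := by
    intro g hg hgp n hn hnp
    have hg' := hG _ (G.inv_mem hg)
    rw [deriv_mul (hG _ (G.mul_mem hg hn)) hg' (inv_fix hgp), deriv_mul (hG g hg) (hG n hn) hnp]
    have h1 := deriv_mul (hG g hg) hg' (p := p) (inv_fix hgp)
    rw [mul_inv_cancel] at h1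
    have h2 : deriv (⇑(1 : Equiv.Perm ℝ)) p = 1 := by
      rw [Equiv.Perm.coe_one]; exact deriv_id p
    rw [h2] at h1
    calc deriv g p * deriv n p * deriv (⇑g⁻¹) p = (deriv g p * deriv (⇑g⁻¹) p) * deriv n p := by ring
      _ = deriv n p := by rw [← h1, one_mul]
  have hdinv : ∀ g ∈ G, g p = p → deriv g p * deriv (⇑g⁻¹) p = 1 := by
    intro g hg hgp
    have h1 := deriv_mul (hG g hg) (hG _ (G.inv_mem hg)) (p := p) (inv_fix hgp)
    rw [mul_inv_cancel] at h1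
    rw [← h1, Equiv.Perm.coe_one]; exact deriv_id p
  have hdcomm : ∀ g ∈ G, g p = p → ∀ n ∈ G, n p = p → deriv (⇑(g * n * g⁻¹ * n⁻¹)) p = 1 := by
    intro g hg hgp n hn hnp
    rw [deriv_mul (hG _ (G.mul_mem (G.mul_mem hg hn) (G.inv_mem hg))) (hG _ (G.inv_mem hn))
      (inv_fix hnp), hdconj g hg hgp n hn hnp, hdinv n hn hnp]
  by_cases hhyp : ∃ n ∈ A, n p = p ∧ deriv n p ≠ 1
  · -- hyperbolic case
    obtain ⟨n, hn, hnp, hnd⟩ := hhyp
    have hnA := hanA n hn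
    have hnA' := hanA _ (A.inv_mem hn)
    have hcn : ∀ g ∈ G, g p = p → g * n = n * g := by
      intro g hg hgp
      have hm : n⁻¹ * (g * n * g⁻¹) = 1 := by
        have hmA : n⁻¹ * (g * n * g⁻¹) ∈ A := A.mul_mem (A.inv_mem hn) (hnorm g hg n hn)
        refine claimX hnA hnA' (hanA _ hmA) hnp ?_ (hcomm n hn _ hmA) hnd ?_
        · simp only [Equiv.Perm.mul_apply]
          rw [inv_fix hgp, hnp, hgp, inv_fix hnp]
        · have h2 : (g * n * g⁻¹) p = p := by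
            simp only [Equiv.Perm.mul_apply]
            rw [inv_fix hgp, hnp, hgp]
          rw [deriv_mul hnA' (hanA _ (hnorm g hg n hn)) h2, hdconj g hg hgp n (hAG hn) hnp,
            mul_comm]
          exact hdinv n (hAG hn) hnp
      have h3 : g * n * g⁻¹ = n := by
        have := congrArg (fun z => n * z) hm
        simpa using this
      calc g * n = (g * n * g⁻¹) * g := by group
        _ = n * g := by rw [h3]
    intro a ha b hb c hc d hd
    set x := a * b * a⁻¹ * b⁻¹ with hx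
    set y := c * d * c⁻¹ * d⁻¹ with hy
    have hxG : x ∈ G := commG ha hb
    have hyG : y ∈ G := commG hc hd
    have hxp : x p = p := hcfix a ha b hb
    have hyp : y p = p := hcfix c hc d hd
    have hz : x * y * x⁻¹ * y⁻¹ = 1 := by
      have hzG := commG hxG hyG
      refine claimX hnA hnA' (hG _ hzG) hnp (hcfix x hxG y hyG) ?_ hnd
        (hdcomm x hxG hxp y hyG hyp)
      exact (hcn _ hzG (hcfix x hxG y hyG)).symm
    calc x * y = (x * y * x⁻¹ * y⁻¹) * (y * x) := by group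
      _ = y * x := by rw [hz, one_mul]
  · push Not at hhyp
    -- parabolic case
    obtain ⟨r, hr, u0, hu0, hu00⟩ := exists_fac (hanA a0 ha0) ha01 ha0p
    have hr2 := two_le_of_deriv (hanA a0 ha0) ha0p hu0.lead hu00 hr (hhyp a0 ha0 ha0p)
    have hex : ∀ a : Equiv.Perm ℝ, ∃ c : ℝ, a ∈ A → a p = p → (Lead a p r c ∧ (a ≠ 1 → c ≠ 0)) := by
      intro a
      by_cases hcase : a ∈ A ∧ a p = p ∧ a ≠ 1
      · obtain ⟨ha, hap, ha1⟩ := hcase
        obtain ⟨s, hs, v, hv, hv0⟩ := exists_fac (hanA a ha) ha1 hap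
        have := order_eq (hanA a0 ha0) (hanA _ (A.inv_mem ha0)) (hanA a ha)
          (hanA _ (A.inv_mem ha)) (hanA _ (A.mul_mem ha ha0))
          (hanA _ (A.inv_mem (A.mul_mem ha ha0))) ha0p hap (hcomm a0 ha0 a ha) ha01 ha1 hr hs
          hu0 hv hu00 hv0
        subst this
        exact ⟨v p, fun _ _ => ⟨hv.lead, fun _ => hv0⟩⟩
      · refine ⟨0, fun ha hap => ?_⟩
        have ha1 : a = 1 := by
          by_contra h
          exact hcase ⟨ha, hap, h⟩
        subst ha1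
        exact ⟨lead_id p r, fun h => absurd rfl h⟩
    choose φ hφ using hex
    have hscale : ∀ T ∈ G, ∃ C : ℝ, ∀ a ∈ A, a p = p → φ (T * a * T⁻¹) = C * φ a := by
      intro T hT
      exact scale_exists hG hAG hnorm hcomm hpF hF hinv hhyp (fun a ha hap => (hφ a ha hap).1)
        (fun a ha hap => (hφ a ha hap).2) ha0 ha0p ha01 hT
    have hfixT : ∀ S ∈ G, ∀ a ∈ A, a p = p → (S * a * S⁻¹) p = p := by
      intro S hS a ha hap
      by_cases h1 : a = 1
      · subst h1; simp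
      · have h2 := hinv S⁻¹ (G.inv_mem hS) p hpF
        have h3 := (hF a ha hap h1 (S⁻¹ p)).2 h2
        rw [Equiv.Perm.mul_apply, Equiv.Perm.mul_apply, h3, ap_inv]
    have hφa0 : φ a0 ≠ 0 := (hφ a0 ha0 ha0p).2 ha01
    -- commutators have derivative one
    have hd1 : ∀ S ∈ G, ∀ T ∈ G, deriv (⇑(S * T * S⁻¹ * T⁻¹)) p = 1 := by
      intro S hS T hT
      obtain ⟨C1, h1⟩ := hscale S hS
      obtain ⟨C2, h2⟩ := hscale T hT
      obtain ⟨C3, h3⟩ := hscale S⁻¹ (G.inv_mem hS)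
      obtain ⟨C4, h4⟩ := hscale T⁻¹ (G.inv_mem hT)
      have e13 : C1 * C3 = 1 := by
        have h5 := h1 _ (hnorm S⁻¹ (G.inv_mem hS) a0 ha0) (hfixT S⁻¹ (G.inv_mem hS) a0 ha0 ha0p)
        rw [h3 a0 ha0 ha0p] at h5
        have h6 : S * (S⁻¹ * a0 * S⁻¹⁻¹) * S⁻¹ = a0 := by group
        rw [h6] at h5
        have h7 : (C1 * C3 - 1) * φ a0 = 0 := by linarith
        rcases mul_eq_zero.1 h7 with h8 | h8
        · linarith
        · exact absurd h8 hφa0
      have e24 : C2 * C4 = 1 := by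
        have h5 := h2 _ (hnorm T⁻¹ (G.inv_mem hT) a0 ha0) (hfixT T⁻¹ (G.inv_mem hT) a0 ha0 ha0p)
        rw [h4 a0 ha0 ha0p] at h5
        have h6 : T * (T⁻¹ * a0 * T⁻¹⁻¹) * T⁻¹ = a0 := by group
        rw [h6] at h5
        have h7 : (C2 * C4 - 1) * φ a0 = 0 := by linarith
        rcases mul_eq_zero.1 h7 with h8 | h8
        · linarith
        · exact absurd h8 hφa0
      set c := S * T * S⁻¹ * T⁻¹ with hc
      have hcG : c ∈ G := commG hS hT
      have hcp : c p = p := hcfix S hS T hT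
      have hA1 := hnorm T⁻¹ (G.inv_mem hT) a0 ha0
      have hp1 := hfixT T⁻¹ (G.inv_mem hT) a0 ha0 ha0p
      have hA2 := hnorm S⁻¹ (G.inv_mem hS) _ hA1
      have hp2 := hfixT S⁻¹ (G.inv_mem hS) _ hA1 hp1
      have hA3 := hnorm T hT _ hA2
      have hp3 := hfixT T hT _ hA2 hp2
      have key : φ (c * a0 * c⁻¹) = φ a0 := by
        have e : c * a0 * c⁻¹ =
            S * (T * (S⁻¹ * (T⁻¹ * a0 * T⁻¹⁻¹) * S⁻¹⁻¹) * T⁻¹) * S⁻¹ := by rw [hc]; group
        rw [e, h1 _ hA3 hp3, h2 _ hA2 hp2, h3 _ hA1 hp1, h4 _ ha0 ha0p]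
        calc C1 * (C2 * (C3 * (C4 * φ a0))) = (C1 * C3) * (C2 * C4) * φ a0 := by ring
          _ = φ a0 := by rw [e13, e24]; ring
      have hl := lead_conj (hG c hcG) (hG _ (G.inv_mem hcG)) (hanA a0 ha0) hcp ha0p
        (hφ a0 ha0 ha0p).1
      have hl2 := (hφ _ (hnorm c hcG a0 ha0) (hfixT c hcG a0 ha0 ha0p)).1
      rw [key] at hl2
      exact eq_one_of_scale (deriv_pos (hG c hcG) (hG _ (G.inv_mem hcG)) hcp) hφa0 hr2
        (hl.unique hl2)
    -- order of elements tangent to the identity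
    have hord : ∀ g ∈ G, g p = p → g ≠ 1 → deriv g p = 1 → ∀ s : ℕ, ∀ v : ℝ → ℝ, 1 ≤ s →
        Fac g p s v → v p ≠ 0 → s = r := by
      intro g hg hgp hg1 hgd s v hs hv hv0
      by_contra hne
      have hs2 := two_le_of_deriv (hG g hg) hgp hv.lead hv0 hs hgd
      have hAc : g * a0 * g⁻¹ * a0⁻¹ ∈ A := A.mul_mem (hnorm g hg a0 ha0) (A.inv_mem ha0)
      have hl := lead_comm (hG g hg) (hanA a0 ha0) (hG _ (G.mul_mem (hAG ha0) hg))
        (hG _ (G.inv_mem (G.mul_mem (hAG ha0) hg))) hgp ha0p hs2 hr2 hv hu0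
      have hcne : (((s : ℝ) - r) * v p * u0 p) ≠ 0 := by
        refine mul_ne_zero (mul_ne_zero ?_ hv0) hu00
        rw [sub_ne_zero]
        exact_mod_cast hne
      have hne1 : g * a0 * g⁻¹ * a0⁻¹ ≠ 1 := by
        intro h
        rw [h] at hl
        exact hcne (hl.unique (lead_id p _))
      have hpc : (g * a0 * g⁻¹ * a0⁻¹) p = p := hcfix g hg a0 (hAG ha0)
      have h5 := hφ _ hAc hpc
      have h6 := h5.1.order_unique hl (h5.2 hne1) hcne
      omega
    intro a ha b hb c hc d hd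
    set x := a * b * a⁻¹ * b⁻¹ with hx
    set y := c * d * c⁻¹ * d⁻¹ with hy
    have hxG : x ∈ G := commG ha hb
    have hyG : y ∈ G := commG hc hd
    have hxp : x p = p := hcfix a ha b hb
    have hyp : y p = p := hcfix c hc d hd
    by_cases hx1 : x = 1
    · rw [hx1, one_mul, mul_one]
    by_cases hy1 : y = 1
    · rw [hy1, one_mul, mul_one]
    have hz : x * y * x⁻¹ * y⁻¹ = 1 := by
      by_contra hz1
      have hzG := commG hxG hyG
      obtain ⟨s, hs, v, hv, hv0⟩ := exists_fac (hG x hxG) hx1 hxp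
      obtain ⟨t, ht, w, hw, hw0⟩ := exists_fac (hG y hyG) hy1 hyp
      have hsr := hord x hxG hxp hx1 (hd1 a ha b hb) s v hs hv hv0
      have htr := hord y hyG hyp hy1 (hd1 c hc d hd) t w ht hw hw0
      subst hsr
      subst htr
      have hl := lead_comm (hG x hxG) (hG y hyG) (hG _ (G.mul_mem hyG hxG))
        (hG _ (G.inv_mem (G.mul_mem hyG hxG))) hxp hyp hr2 hr2 hv hw
      rw [sub_self, zero_mul, zero_mul] at hl
      have hzp : (x * y * x⁻¹ * y⁻¹) p = p := hcfix x hxG y hyG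
      obtain ⟨k, hk, z, hz', hz0⟩ := exists_fac (hG _ hzG) hz1 hzp
      have hkr := hord _ hzG hzp hz1 (hd1 x hxG y hyG) k z hk hz' hz0
      subst hkr
      exact hz0 (hz'.lead.unique (hl.lower (by omega)))
    calc x * y = (x * y * x⁻¹ * y⁻¹) * (y * x) := by group
      _ = y * x := by rw [hz, one_mul]

end Pool.Agent.Helper43.Tits
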