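import Pool.Agent.Helper43.Tits.CaseFix

set_option autoImplicit false

/-!
Case 2: the abelian normal subgroup acts freely on the line.
-/

namespace Pool.Agent.Helper43.Tits

open Set Filter Topology

/-- An abelian group of increasing analytic bijections acting freely embeds into the reals. -/
theorem exists_tau {A : Subgroup (Equiv.Perm ℝ)} (hA : AnGrp A)
    (hcomm : ∀ a ∈ A, ∀ b ∈ A, a * b = b * a) (hfree : ∀ a ∈ A, a ≠ 1 → ∀ x, a x ≠ x) :
    ∃ τ : A → ℝ, (∀ a b, τ (a * b) = τ a + τ b) ∧ (∀ a, 0 < τ a ↔ 0 < (a : Equiv.Perm ℝ) 0) ∧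
      Function.Injective τ := by
  let _ : CommGroup A := { (inferInstance : Group A) with
    mul_comm := fun a b => Subtype.ext (hcomm a a.2 b b.2) }
  have hinj : Function.Injective (fun a : A => (a : Equiv.Perm ℝ) 0) := by
    intro a b hab
    by_contra hne
    have h1 : (b : Equiv.Perm ℝ)⁻¹ * a ≠ 1 := by
      intro h
      apply hne
      have := congrArg (fun z => (b : Equiv.Perm ℝ) * z) h
      simp only [mul_inv_cancel_left, mul_one] at this
      exact Subtype.ext this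
    apply hfree _ (A.mul_mem (A.inv_mem b.2) a.2) h1 0
    rw [Equiv.Perm.mul_apply]
    have hab' : (a : Equiv.Perm ℝ) 0 = (b : Equiv.Perm ℝ) 0 := hab
    rw [hab', inv_ap]
  let _ : LinearOrder A := LinearOrder.lift' (fun a : A => (a : Equiv.Perm ℝ) 0) hinj
  have hle : ∀ a b : A, a ≤ b ↔ (a : Equiv.Perm ℝ) 0 ≤ (b : Equiv.Perm ℝ) 0 := fun a b => Iff.rfl
  have hlt : ∀ a b : A, a < b ↔ (a : Equiv.Perm ℝ) 0 < (b : Equiv.Perm ℝ) 0 := fun a b => Iff.rfl
  have hml : ∀ a b : A, a ≤ b → ∀ c : A, c * a ≤ c * b := by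
    intro a b hab c
    rw [hle] at hab ⊢
    simp only [Subgroup.coe_mul, Equiv.Perm.mul_apply]
    exact (hA c c.2).2.monotone hab
  have hmr : ∀ a b : A, a ≤ b → ∀ c : A, a * c ≤ b * c := by
    intro a b hab c
    have h1 : a * c = c * a := Subtype.ext (hcomm a a.2 c c.2)
    have h2 : b * c = c * b := Subtype.ext (hcomm b b.2 c c.2)
    rw [h1, h2]
    exact hml a b hab c
  have : IsOrderedMonoid A := by
    constructor
    · first | exact hml | exact hmr
    · first | exact hmr | exact hml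
  have : MulArchimedean A := by
    refine ⟨fun x y hy => ?_⟩
    rw [hlt] at hy
    have hy1 : (y : Equiv.Perm ℝ) ≠ 1 := by
      intro h
      rw [h] at hy
      simp at hy
    have hy' : (0 : ℝ) < (y : Equiv.Perm ℝ) 0 := by simpa using hy
    obtain ⟨n, hn⟩ := unbdd_up (hA y y.2) (hfree y y.2 hy1) hy' ((x : Equiv.Perm ℝ) 0)
    refine ⟨n, ?_⟩
    rw [hle]
    simpa using hn.le
  obtain ⟨f, hf⟩ := Archimedean.exists_orderAddMonoidHom_real_injective (Additive A)
  refine ⟨fun a => f (Additive.ofMul a), fun a b => ?_, fun a => ?_, ?_⟩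
  · show f (Additive.ofMul (a * b)) = f (Additive.ofMul a) + f (Additive.ofMul b)
    rw [ofMul_mul, map_add]
  · have hsm : StrictMono f := f.monotone'.strictMono_of_injective hf
    constructor
    · intro h
      by_contra hcon
      have h1 : a ≤ 1 := by
        rw [hle]
        simpa using hcon
      have h2 : f (Additive.ofMul a) ≤ f (Additive.ofMul 1) := f.monotone' h1
      rw [ofMul_one, map_zero] at h2
      linarith
    · intro h
      have h1 : (1 : A) < a := by
        rw [hlt]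
        simpa using h
      have h2 : f (Additive.ofMul 1) < f (Additive.ofMul a) := hsm h1
      rwa [ofMul_one, map_zero] at h2
  · intro a b hab
    exact Additive.ofMul.injective (hf hab)

/-- Case 2 and 3: the abelian normal subgroup acts freely. -/
theorem case_free {G A : Subgroup (Equiv.Perm ℝ)} (hG : AnGrp G) (hAG : A ≤ G)
    (hnorm : ∀ g ∈ G, ∀ a ∈ A, g * a * g⁻¹ ∈ A) (hcomm : ∀ a ∈ A, ∀ b ∈ A, a * b = b * a)
    (hfree : ∀ a ∈ A, a ≠ 1 → ∀ x, a x ≠ x) (hne : ∃ a ∈ A, a ≠ 1) :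
    Metab G ∨ ∃ b ∈ A, (∀ a ∈ A, ∃ m : ℤ, a = b ^ m) ∧ (∀ x, b x ≠ x) ∧
      (∀ g ∈ G, g * b = b * g) := by
  have hanA : AnGrp A := fun g hg => hG g (hAG hg)
  by_cases hcyc : ∃ b ∈ A, ∀ a ∈ A, ∃ m : ℤ, a = b ^ m
  · right
    obtain ⟨b, hb, hgen⟩ := hcyc
    have hb1 : b ≠ 1 := by
      rintro rfl
      obtain ⟨a, ha, ha1⟩ := hne
      obtain ⟨m, hm⟩ := hgen a ha
      exact ha1 (by rw [hm, one_zpow])
    have hbf := hfree b hb hb1
    refine ⟨b, hb, hgen, hbf, fun g hg => ?_⟩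
    have hbc := (hanA b hb).cont
    -- infinite order
    have hinf : ∀ m : ℤ, b ^ m = 1 → m = 0 := by
      intro m hm
      by_contra hm0
      have hb2 : ∃ c : Equiv.Perm ℝ, c ∈ A ∧ (∀ x, c x ≠ x) ∧ 0 < c 0 ∧ c ^ m = 1 := by
        rcases lt_or_gt_of_ne (hbf 0) with h | h
        · refine ⟨b⁻¹, A.inv_mem hb, inv_free hbf, ?_, ?_⟩
          · have := inv_strictMono (hanA b hb).2 h
            rwa [inv_ap] at this
          · rw [inv_zpow, hm, inv_one]
        · exact ⟨b, hb, hbf, h, hm⟩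
      obtain ⟨c, hc, -, hc0, hcm⟩ := hb2
      have hmono := zpow_iter_strictMono (hanA c hc).2 hc0
      have h1 := hmono.injective (a₁ := m) (a₂ := 0) (by simp [hcm])
      exact hm0 h1
    obtain ⟨k, hk⟩ := hgen _ (hnorm g hg b hb)
    obtain ⟨l, hl⟩ := hgen _ (hnorm g⁻¹ (G.inv_mem hg) b hb)
    have hkl : b ^ (k * l) = b := by
      have h1 : g * (g⁻¹ * b * g⁻¹⁻¹) * g⁻¹ = b := by group
      rw [hl, ← conj_zpow, hk, ← zpow_mul] at h1
      exact h1
    have hkl1 : k * l = 1 := by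
      have : b ^ (k * l - 1) = 1 := by
        rw [zpow_sub, hkl, zpow_one, mul_inv_cancel]
      have := hinf _ this
      omega
    have hk' : k = 1 ∨ k = -1 := Int.eq_one_or_neg_one_of_mul_eq_one hkl1
    rcases hk' with h | h
    · rw [h, zpow_one] at hk
      calc g * b = (g * b * g⁻¹) * g := by group
        _ = b * g := by rw [hk]
    · exfalso
      rw [h, zpow_neg, zpow_one] at hk
      -- signs
      have hgm := (hG g hg).2
      rcases lt_or_gt_of_ne (hbf 0) with h0 | h0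
      · -- b < id; g b g⁻¹ < id but b⁻¹ > id
        have hb' : ∀ x, b x < x := by
          intro x
          rcases lt_or_gt_of_ne (hbf x) with h1 | h1
          · exact h1
          · have := free_pos hbc hbf h1 0
            linarith
        have h1 := hgm (hb' (g⁻¹ 0))
        rw [ap_inv] at h1
        have h2 := congrArg (fun z : Equiv.Perm ℝ => z 0) hk
        simp only [Equiv.Perm.mul_apply] at h2
        rw [h2] at h1
        have h3 := (hanA b hb).2 h1
        rw [ap_inv] at h3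
        linarith
      · have hb' := fun x => free_pos hbc hbf h0 x
        have h1 := hgm (hb' (g⁻¹ 0))
        rw [ap_inv] at h1
        have h2 := congrArg (fun z : Equiv.Perm ℝ => z 0) hk
        simp only [Equiv.Perm.mul_apply] at h2
        rw [h2] at h1
        have h3 := (hanA b hb).2 h1
        rw [ap_inv] at h3
        linarith
  · left
    obtain ⟨τ, hτadd, hτpos, hτinj⟩ := exists_tau hanA hcomm hfree
    -- commutators centralise A
    have hscale : ∀ T (hT : T ∈ G), ∃ C : ℝ, ∀ a : A,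
        τ ⟨T * a * T⁻¹, hnorm T hT a a.2⟩ = C * τ a := by
      intro T hT
      obtain ⟨C, -, hC⟩ := prop_of_pos τ (fun a : A => τ ⟨T * a * T⁻¹, hnorm T hT a a.2⟩) hτadd
        (by
          intro a b
          rw [← hτadd]
          congr 1
          apply Subtype.ext
          simp only [Subgroup.coe_mul]
          group)
        (by
          intro a
          rw [hτpos, hτpos]
          by_cases ha1 : (a : Equiv.Perm ℝ) = 1
          · simp [ha1]
          have haf := hfree a a.2 ha1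
          have hac := (hanA a a.2).cont
          have hTm := (hG T hT).2
          have hTm' := inv_strictMono hTm
          simp only [Equiv.Perm.mul_apply]
          constructor
          · intro h
            have := hTm (free_pos hac haf h (T⁻¹ 0))
            rwa [ap_inv] at this
          · intro h
            have := hTm' h
            rw [inv_ap] at this
            exact free_pos hac haf this 0)
      exact ⟨C, hC⟩
    obtain ⟨a1, ha1, ha11⟩ := hne
    have hτ1 : τ 1 = 0 := by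
      have := hτadd 1 1
      rw [mul_one] at this
      linarith
    have hτa1 : τ ⟨a1, ha1⟩ ≠ 0 := by
      intro h
      rw [← hτ1] at h
      have := hτinj h
      exact ha11 (congrArg Subtype.val this)
    have hccen : ∀ S ∈ G, ∀ T ∈ G, ∀ a ∈ A,
        (S * T * S⁻¹ * T⁻¹) * a = a * (S * T * S⁻¹ * T⁻¹) := by
      intro S hS T hT a ha
      obtain ⟨C1, h1⟩ := hscale S hS
      obtain ⟨C2, h2⟩ := hscale T hT
      obtain ⟨C3, h3⟩ := hscale S⁻¹ (G.inv_mem hS)
      obtain ⟨C4, h4⟩ := hscale T⁻¹ (G.inv_mem hT)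
      have gen : ∀ (R : Equiv.Perm ℝ) (hR : R ∈ G) (C D : ℝ),
          (∀ a : A, τ ⟨R * a * R⁻¹, hnorm R hR a a.2⟩ = C * τ a) →
          (∀ a : A, τ ⟨R⁻¹ * a * R⁻¹⁻¹, hnorm R⁻¹ (G.inv_mem hR) a a.2⟩ = D * τ a) → C * D = 1 := by
        intro R hR C D hC hD
        have h5 := hC ⟨R⁻¹ * a1 * R⁻¹⁻¹, hnorm R⁻¹ (G.inv_mem hR) a1 ha1⟩
        rw [hD ⟨a1, ha1⟩] at h5
        have h6 : (⟨R * (R⁻¹ * a1 * R⁻¹⁻¹) * R⁻¹, hnorm R hR _
          (hnorm R⁻¹ (G.inv_mem hR) a1 ha1)⟩ : A) = ⟨a1, ha1⟩ := by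
          apply Subtype.ext
          show R * (R⁻¹ * a1 * R⁻¹⁻¹) * R⁻¹ = a1
          group
        rw [h6] at h5
        have h7 : (C * D - 1) * τ ⟨a1, ha1⟩ = 0 := by linarith
        rcases mul_eq_zero.1 h7 with h8 | h8
        · linarith
        · exact absurd h8 hτa1
      have e13 := gen S hS C1 C3 h1 h3
      have e24 := gen T hT C2 C4 h2 h4
      set c := S * T * S⁻¹ * T⁻¹ with hc
      have hcG : c ∈ G := commG hS hT
      have key : τ ⟨c * a * c⁻¹, hnorm c hcG a ha⟩ = τ ⟨a, ha⟩ := by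
        have e : (⟨c * a * c⁻¹, hnorm c hcG a ha⟩ : A) =
            ⟨S * (T * (S⁻¹ * (T⁻¹ * a * T⁻¹⁻¹) * S⁻¹⁻¹) * T⁻¹) * S⁻¹,
              hnorm S hS _ (hnorm T hT _ (hnorm S⁻¹ (G.inv_mem hS) _
                (hnorm T⁻¹ (G.inv_mem hT) a ha)))⟩ := by
          apply Subtype.ext
          simp only [hc]
          group
        rw [e]
        have g1 := h1 ⟨T * (S⁻¹ * (T⁻¹ * a * T⁻¹⁻¹) * S⁻¹⁻¹) * T⁻¹,
          hnorm T hT _ (hnorm S⁻¹ (G.inv_mem hS) _ (hnorm T⁻¹ (G.inv_mem hT) a ha))⟩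
        have g2 := h2 ⟨S⁻¹ * (T⁻¹ * a * T⁻¹⁻¹) * S⁻¹⁻¹,
          hnorm S⁻¹ (G.inv_mem hS) _ (hnorm T⁻¹ (G.inv_mem hT) a ha)⟩
        have g3 := h3 ⟨T⁻¹ * a * T⁻¹⁻¹, hnorm T⁻¹ (G.inv_mem hT) a ha⟩
        have g4 := h4 ⟨a, ha⟩
        rw [g1, g2, g3, g4]
        calc C1 * (C2 * (C3 * (C4 * τ ⟨a, ha⟩))) = (C1 * C3) * (C2 * C4) * τ ⟨a, ha⟩ := by ring
          _ = τ ⟨a, ha⟩ := by rw [e13, e24]; ring
      have := congrArg Subtype.val (hτinj key)
      simp only at this
      calc c * a = (c * a * c⁻¹) * c := by group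
        _ = a * c := by rw [this]
    -- elements centralising A act freely
    have hcenfree : ∀ g ∈ G, (∀ a ∈ A, g * a = a * g) → g ≠ 1 → ∀ q, g q ≠ q := by
      intro g hg hga hg1 q hq
      have hFd := disc_fix (hG g hg) hg1
      have hAq : ∀ a ∈ A, a q ∈ {x | g x = x} := by
        intro a ha
        show g (a q) = a q
        rw [← Equiv.Perm.mul_apply, hga a ha, Equiv.Perm.mul_apply, hq]
      have hne' : ({s | ∃ a ∈ A, s = a q ∧ q < a q} : Set ℝ).Nonempty := by
        rcases lt_or_gt_of_ne (hfree a1 ha1 ha11 q) with h | h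
        · refine ⟨a1⁻¹ q, a1⁻¹, A.inv_mem ha1, rfl, ?_⟩
          have := inv_strictMono (hanA a1 ha1).2 h
          rwa [inv_ap] at this
        · exact ⟨a1 q, a1, ha1, rfl, h⟩
      obtain ⟨s, ⟨c, hc, rfl, hcq⟩, hmin⟩ := exists_min_of_disc hFd
        (S := {s | ∃ a ∈ A, s = a q ∧ q < a q})
        (by rintro _ ⟨a, ha, rfl, -⟩; exact hAq a ha) hne' ⟨q, by rintro _ ⟨a, ha, rfl, h⟩; exact h.le⟩
      have hc1 : c ≠ 1 := by rintro rfl; simp at hcq
      have hcf := hfree c hc hc1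
      have hcm := (hanA c hc).2
      have hdown : ∀ b : ℝ, ∃ n : ℕ, (c⁻¹ ^ n) q < b := by
        intro t
        have h1 : c⁻¹ q < q := by
          have := inv_strictMono hcm hcq
          rwa [inv_ap] at this
        exact unbdd_down (hanA _ (A.inv_mem hc)) (inv_free hcf) h1 t
      apply hcyc
      refine ⟨c, hc, fun a ha => ?_⟩
      obtain ⟨m, hm1, hm2⟩ := exists_zfloor hcm hcq (unbdd_up (hanA c hc) hcf hcq) hdown (a q)
      refine ⟨m, ?_⟩
      have haA : c ^ (-m) * a ∈ A := A.mul_mem (A.zpow_mem hc _) ha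
      have h1 : q ≤ (c ^ (-m) * a) q := by
        have := (zpow_strictMono hcm (-m)).monotone hm1
        rw [← Equiv.Perm.mul_apply, ← zpow_add] at this
        simpa [Equiv.Perm.mul_apply] using this
      have h2 : (c ^ (-m) * a) q < c q := by
        have := zpow_strictMono hcm (-m) hm2
        rw [← Equiv.Perm.mul_apply (c ^ (-m)) (c ^ (m + 1)), ← zpow_add] at this
        simpa [Equiv.Perm.mul_apply] using this
      have h3 : (c ^ (-m) * a) q = q := by
        rcases eq_or_lt_of_le h1 with h4 | h4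
        · exact h4.symm
        · exact absurd h2 (not_lt.2 (hmin _ ⟨_, haA, rfl, h4⟩))
      have h4 : c ^ (-m) * a = 1 := by
        by_contra h5
        exact hfree _ haA h5 q h3
      rw [zpow_neg, inv_mul_eq_one] at h4
      exact h4.symm
    let K : Subgroup (Equiv.Perm ℝ) := G ⊓ Subgroup.centralizer (A : Set (Equiv.Perm ℝ))
    have hKG : K ≤ G := inf_le_left
    have hKc : ∀ g ∈ K, ∀ a ∈ A, g * a = a * g := by
      intro g hg a ha
      exact (Subgroup.mem_centralizer_iff.1 hg.2 a ha).symm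
    have hKfree : ∀ h ∈ K, h ≠ 1 → ∀ x, (∃ g ∈ K, g (0 : ℝ) ≤ x) → (∃ g ∈ K, x ≤ g (0 : ℝ)) →
        h x ≠ x := fun h hh h1 x _ _ => hcenfree h (hKG hh) (hKc h hh) h1 x
    have hKcomm := free_comm (H := K) (fun g hg => hG g (hKG hg)) 0 hKfree
    intro a ha b hb c hc d hd
    have hmem : ∀ S ∈ G, ∀ T ∈ G, S * T * S⁻¹ * T⁻¹ ∈ K := by
      intro S hS T hT
      refine Subgroup.mem_inf.2 ⟨commG hS hT, ?_⟩
      rw [Subgroup.mem_centralizer_iff]
      intro a ha
      exact (hccen S hS T hT a ha).symm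
    exact hKcomm _ (hmem a ha b hb) _ (hmem c hc d hd)

/-- Groups of increasing analytic bijections with a non-trivial abelian normal subgroup. -/
theorem tprime {G A : Subgroup (Equiv.Perm ℝ)} (hG : AnGrp G) (hAG : A ≤ G)
    (hnorm : ∀ g ∈ G, ∀ a ∈ A, g * a * g⁻¹ ∈ A) (hcomm : ∀ a ∈ A, ∀ b ∈ A, a * b = b * a)
    (hne : ∃ a ∈ A, a ≠ 1) :
    Metab G ∨ ∃ b ∈ A, (∀ a ∈ A, ∃ m : ℤ, a = b ^ m) ∧ (∀ x, b x ≠ x) ∧
      (∀ g ∈ G, g * b = b * g) := by
  by_cases h : ∀ a ∈ A, a ≠ 1 → ∀ x, a x ≠ x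
  · exact case_free hG hAG hnorm hcomm h hne
  · push Not at h
    obtain ⟨a0, ha0, ha01, p, hp⟩ := h
    exact Or.inl (case_fix hG hAG hnorm hcomm ha0 ha01 hp)

end Pool.Agent.Helper43.Tits
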