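import Pool.Agent.Helper43.Tits.NoFree

set_option autoImplicit false

/-!
The class of groups generated by the groups without free subsemigroups, and the main theorem.
-/

namespace Pool.Agent.Helper43.Tits

open Set Filter Topology

/-- `G` contains no free monoid (equivalently no free semigroup) of rank two. -/
def NoFreeMonoid (G : Type) [Group G] : Prop :=
  ∀ φ : FreeMonoid (Fin 2) →* G, ¬ Function.Injective φ

/-- A class of groups that contains all groups without free subsemigroups of rank two and is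
closed under subgroups, quotients, extensions and directed unions. -/
structure ClosedClass (P : (G : Type) → [Group G] → Prop) : Prop where
  base : ∀ (G : Type) [Group G], NoFreeMonoid G → P G
  sub : ∀ (G H : Type) [Group G] [Group H] (f : H →* G), Function.Injective f → P G → P H
  quot : ∀ (G H : Type) [Group G] [Group H] (f : G →* H), Function.Surjective f → P G → P H
  ext : ∀ (G : Type) [Group G] (N : Subgroup G) [N.Normal], P N → P (G ⧸ N) → P G
  union : ∀ (G : Type) [Group G] (F : Finset G → Subgroup G),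
    (∀ s : Finset G, (s : Set G) ⊆ F s) → (∀ s : Finset G, P (F s)) → P G

/-- Membership in the smallest closed class. -/
def Tame (G : Type) [Group G] : Prop :=
  ∀ P : (G : Type) → [Group G] → Prop, ClosedClass P → P G

/-- kernel condition for a relation `E ≤ G × Perm ℝ` -/
def KerNorm {G : Type} [Group G] (E : Subgroup (G × Equiv.Perm ℝ)) : Prop :=
  (∀ z, ((1 : G), z) ∈ E → z = 1) ∨ ∃ b, ((1 : G), b) ∈ E ∧ (∀ x, b x ≠ x) ∧
    (∀ y ∈ E, y.2 * b = b * y.2) ∧ ∀ z, ((1 : G), z) ∈ E → ∃ m : ℤ, z = b ^ m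

/-- the property proved by induction over the class -/
def Phi (G : Type) [Group G] : Prop :=
  ∀ E : Subgroup (G × Equiv.Perm ℝ), (∀ y ∈ E, An y.2) → KerNorm E →
    Metab (E.map (MonoidHom.snd G (Equiv.Perm ℝ)))

theorem Metab.mono {K L : Subgroup (Equiv.Perm ℝ)} (h : K ≤ L) (hL : Metab L) : Metab K :=
  fun a ha b hb c hc d hd => hL a (h ha) b (h hb) c (h hc) d (h hd)

theorem anGrp_snd {G : Type} [Group G] {E : Subgroup (G × Equiv.Perm ℝ)}
    (hE : ∀ y ∈ E, An y.2) : AnGrp (E.map (MonoidHom.snd G (Equiv.Perm ℝ))) := by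
  rintro _ ⟨y, hy, rfl⟩
  exact hE y hy

theorem mem_snd {G : Type} [Group G] {E : Subgroup (G × Equiv.Perm ℝ)} {z : Equiv.Perm ℝ} :
    z ∈ E.map (MonoidHom.snd G (Equiv.Perm ℝ)) ↔ ∃ g, (g, z) ∈ E := by
  constructor
  · rintro ⟨⟨g, z'⟩, hy, rfl⟩
    exact ⟨g, hy⟩
  · rintro ⟨g, hg⟩
    exact ⟨(g, z), hg, rfl⟩

theorem phi_sub (G H : Type) [Group G] [Group H] (f : H →* G) (hf : Function.Injective f)
    (hG : Phi G) : Phi H := by
  intro E hE hK
  have hmem : ∀ {g : G} {z : Equiv.Perm ℝ}, (g, z) ∈ E.map (f.prodMap (MonoidHom.id _)) ↔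
      ∃ h, f h = g ∧ (h, z) ∈ E := by
    intro g z
    constructor
    · rintro ⟨⟨h, z'⟩, hy, he⟩
      simp only [MonoidHom.coe_prodMap, Prod.map_apply, MonoidHom.id_apply, Prod.mk.injEq] at he
      obtain ⟨h1, rfl⟩ := he
      exact ⟨h, h1, hy⟩
    · rintro ⟨h, rfl, hh⟩
      exact ⟨(h, z), hh, rfl⟩
  have hone : ∀ z : Equiv.Perm ℝ, ((1 : G), z) ∈ E.map (f.prodMap (MonoidHom.id _)) ↔
      ((1 : H), z) ∈ E := by
    intro z
    rw [hmem]
    constructor
    · rintro ⟨h, h1, hh⟩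
      have : h = 1 := hf (by rw [h1, map_one])
      rwa [this] at hh
    · intro h
      exact ⟨1, map_one f, h⟩
  refine Metab.mono ?_ (hG (E.map (f.prodMap (MonoidHom.id _))) ?_ ?_)
  · intro z hz
    obtain ⟨h, hh⟩ := mem_snd.1 hz
    exact mem_snd.2 ⟨f h, hmem.2 ⟨h, rfl, hh⟩⟩
  · rintro ⟨g, z⟩ hy
    obtain ⟨h, -, hh⟩ := hmem.1 hy
    exact hE _ hh
  · rcases hK with h | ⟨b, hb, hbf, hcen, hz⟩
    · exact Or.inl fun z hz => h z ((hone z).1 hz)
    · refine Or.inr ⟨b, (hone b).2 hb, hbf, ?_, fun z h => hz z ((hone z).1 h)⟩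
      rintro ⟨g, z⟩ hy
      obtain ⟨h, -, hh⟩ := hmem.1 hy
      exact hcen _ hh

theorem phi_quot (G H : Type) [Group G] [Group H] (f : G →* H) (hf : Function.Surjective f)
    (hG : Phi G) : Phi H := by
  intro E hE hK
  have hmem : ∀ {g : G} {z : Equiv.Perm ℝ}, (g, z) ∈ E.comap (f.prodMap (MonoidHom.id _)) ↔
      (f g, z) ∈ E := by
    intro g z
    rw [Subgroup.mem_comap]
    rfl
  refine Metab.mono ?_ (hG (E.comap (f.prodMap (MonoidHom.id _))) ?_ ?_)
  · intro z hz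
    obtain ⟨h, hh⟩ := mem_snd.1 hz
    obtain ⟨g, rfl⟩ := hf h
    exact mem_snd.2 ⟨g, hmem.2 hh⟩
  · rintro ⟨g, z⟩ hy
    exact hE _ (hmem.1 hy)
  · rcases hK with h | ⟨b, hb, hbf, hcen, hz⟩
    · refine Or.inl fun z hz => h z ?_
      have := hmem.1 hz
      rwa [map_one] at this
    · refine Or.inr ⟨b, hmem.2 (by rwa [map_one]), hbf, ?_, fun z h => hz z ?_⟩
      · rintro ⟨g, z⟩ hy
        exact hcen _ (hmem.1 hy)
      · have := hmem.1 h
        rwa [map_one] at this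

theorem phi_union (G : Type) [Group G] (F : Finset G → Subgroup G)
    (hF : ∀ s : Finset G, (s : Set G) ⊆ F s) (hP : ∀ s : Finset G, Phi (F s)) : Phi G := by
  classical
  intro E hE hK a ha b hb c hc d hd
  obtain ⟨ga, hga⟩ := mem_snd.1 ha
  obtain ⟨gb, hgb⟩ := mem_snd.1 hb
  obtain ⟨gc, hgc⟩ := mem_snd.1 hc
  obtain ⟨gd, hgd⟩ := mem_snd.1 hd
  set s : Finset G := {ga, gb, gc, gd} with hs
  set f : F s →* G := (F s).subtype with hf
  have hmem : ∀ {g : F s} {z : Equiv.Perm ℝ}, (g, z) ∈ E.comap (f.prodMap (MonoidHom.id _)) ↔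
      ((g : G), z) ∈ E := by
    intro g z
    rw [Subgroup.mem_comap]
    rfl
  have hM := hP s (E.comap (f.prodMap (MonoidHom.id _))) (by
      rintro ⟨g, z⟩ hy
      exact hE _ (hmem.1 hy)) (by
      rcases hK with h | ⟨b, hb, hbf, hcen, hz⟩
      · exact Or.inl fun z hz => h z (hmem.1 hz)
      · refine Or.inr ⟨b, hmem.2 hb, hbf, ?_, fun z h => hz z (hmem.1 h)⟩
        rintro ⟨g, z⟩ hy
        exact hcen _ (hmem.1 hy))
  have up : ∀ g z, g ∈ s → (g, z) ∈ E →
      z ∈ (E.comap (f.prodMap (MonoidHom.id _))).map (MonoidHom.snd (F s) (Equiv.Perm ℝ)) := by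
    intro g z hg hgz
    exact mem_snd.2 ⟨⟨g, hF s hg⟩, hmem.2 hgz⟩
  exact hM a (up ga a (by simp [hs]) hga) b (up gb b (by simp [hs]) hgb) c
    (up gc c (by simp [hs]) hgc) d (up gd d (by simp [hs]) hgd)

theorem phi_base (G : Type) [Group G] (hG : NoFreeMonoid G) : Phi G := by
  intro E hE hK
  set Γ := E.map (MonoidHom.snd G (Equiv.Perm ℝ)) with hΓ
  have hAn : AnGrp Γ := anGrp_snd hE
  refine nofree_metab (S := fun z => ((1 : G), z) ∈ E) hAn ?_ ?_
  · rcases hK with h | ⟨b, hb, hbf, hcen, hz⟩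
    · exact Or.inl h
    · refine Or.inr ⟨b, mem_snd.2 ⟨1, hb⟩, hbf, fun g hg => ?_, hz⟩
      obtain ⟨k, hk⟩ := mem_snd.1 hg
      exact hcen _ hk
  · intro f I u hf hu hmap hdis hker
    choose g hg using fun i => mem_snd.1 (hf i)
    obtain ⟨hI, hinj⟩ := pingpong f hu hmap hdis
    have hw : ∀ w : FreeMonoid (Fin 2), (FreeMonoid.lift g w, FreeMonoid.lift f w) ∈ E := by
      intro w
      induction w using FreeMonoid.recOn with
      | one =>
        rw [map_one, map_one]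
        exact E.one_mem
      | of_mul i w ih =>
        have := E.mul_mem (hg i) ih
        simpa using this
    apply hG (FreeMonoid.lift g)
    intro w1 w2 h12
    apply hinj
    have h1 := E.mul_mem (hw w1) (E.inv_mem (hw w2))
    rw [h12] at h1
    have h2 : ((1 : G), FreeMonoid.lift f w1 * (FreeMonoid.lift f w2)⁻¹) ∈ E := by
      simpa using h1
    have h3 := hker _ h2 ((FreeMonoid.lift f w2) u) (hI w2 u hu) (by
      rw [Equiv.Perm.mul_apply, inv_ap]
      exact hI w1 u hu)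
    rwa [mul_inv_eq_one] at h3

theorem closure_comm {K : Type*} [Group K] {S : Set K} (h : ∀ a ∈ S, ∀ b ∈ S, a * b = b * a) :
    ∀ a ∈ Subgroup.closure S, ∀ b ∈ Subgroup.closure S, a * b = b * a := by
  have h1 : Subgroup.closure S ≤ Subgroup.centralizer S := by
    rw [Subgroup.closure_le]
    intro a ha
    rw [SetLike.mem_coe, Subgroup.mem_centralizer_iff]
    exact fun b hb => h b hb a ha
  intro a ha
  have h2 : Subgroup.closure S ≤ Subgroup.centralizer {a} := by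
    rw [Subgroup.closure_le]
    intro b hb
    rw [SetLike.mem_coe, Subgroup.mem_centralizer_iff]
    rintro c rfl
    exact (Subgroup.mem_centralizer_iff.1 (h1 ha) b hb).symm
  intro b hb
  exact Subgroup.mem_centralizer_iff.1 (h2 hb) a rfl

/-- a non-trivial metabelian normal subgroup forces the whole group to be metabelian, unless it
is infinite cyclic, central and generated by a map without fixed points -/
theorem normal_metab {Γ M : Subgroup (Equiv.Perm ℝ)} (hAn : AnGrp Γ) (hMΓ : M ≤ Γ)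
    (hnorm : ∀ g ∈ Γ, ∀ a ∈ M, g * a * g⁻¹ ∈ M) (hMM : Metab M) (hne : ∃ z ∈ M, z ≠ 1) :
    Metab Γ ∨ ∃ b ∈ M, (∀ a ∈ M, ∃ m : ℤ, a = b ^ m) ∧ (∀ x, b x ≠ x) ∧
      (∀ g ∈ Γ, g * b = b * g) := by
  by_cases habel : ∀ a ∈ M, ∀ b ∈ M, a * b = b * a
  · exact tprime hAn hMΓ hnorm habel hne
  · push Not at habel
    obtain ⟨x, hx, y, hy, hxy⟩ := habel
    set S : Set (Equiv.Perm ℝ) := {z | ∃ a ∈ M, ∃ b ∈ M, z = a * b * a⁻¹ * b⁻¹} with hS
    set C := Subgroup.closure S with hC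
    have hCab : ∀ a ∈ C, ∀ b ∈ C, a * b = b * a := by
      apply closure_comm
      rintro _ ⟨a, ha, b, hb, rfl⟩ _ ⟨c, hc, d, hd, rfl⟩
      exact hMM a ha b hb c hc d hd
    have hCΓ : C ≤ Γ := by
      rw [hC, Subgroup.closure_le]
      rintro _ ⟨a, ha, b, hb, rfl⟩
      exact commG (hMΓ ha) (hMΓ hb)
    have hCn : ∀ g ∈ Γ, ∀ a ∈ C, g * a * g⁻¹ ∈ C := by
      intro g hg a ha
      have hle : C ≤ C.comap (MulAut.conj g).toMonoidHom := by
        rw [hC, Subgroup.closure_le]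
        rintro _ ⟨a, ha, b, hb, rfl⟩
        rw [SetLike.mem_coe, Subgroup.mem_comap]
        apply Subgroup.subset_closure
        refine ⟨g * a * g⁻¹, hnorm g hg a ha, g * b * g⁻¹, hnorm g hg b hb, ?_⟩
        simp only [MulEquiv.coe_toMonoidHom, MulAut.conj_apply]
        group
      exact hle ha
    have hcm : x * y * x⁻¹ * y⁻¹ ∈ C := Subgroup.subset_closure ⟨x, hx, y, hy, rfl⟩
    have hne : x * y * x⁻¹ * y⁻¹ ≠ 1 := by
      intro h
      apply hxy
      calc x * y = (x * y * x⁻¹ * y⁻¹) * (y * x) := by group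
        _ = y * x := by rw [h, one_mul]
    rcases tprime hAn hCΓ hCn hCab ⟨_, hcm, hne⟩ with h | ⟨b, hb, hgen, hbf, hcen⟩
    · exact Or.inl h
    · exfalso
      obtain ⟨m, hm⟩ := hgen _ hcm
      exact hxy (no_central_comm hAn (hCΓ hb) hbf hcen (hMΓ hx) (hMΓ hy) m hm)

theorem phi_ext (G : Type) [Group G] (N : Subgroup G) [N.Normal] (hN : Phi N)
    (hQ : Phi (G ⧸ N)) : Phi G := by
  intro E hE hK
  set Γ := E.map (MonoidHom.snd G (Equiv.Perm ℝ)) with hΓ
  have hAn : AnGrp Γ := anGrp_snd hE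
  set EN := E.comap (N.subtype.prodMap (MonoidHom.id (Equiv.Perm ℝ))) with hEN
  have hmN : ∀ {g : N} {z : Equiv.Perm ℝ}, (g, z) ∈ EN ↔ ((g : G), z) ∈ E := by
    intro g z
    rw [hEN, Subgroup.mem_comap]
    rfl
  set ΓN := EN.map (MonoidHom.snd N (Equiv.Perm ℝ)) with hΓN
  have hmΓN : ∀ z, z ∈ ΓN ↔ ∃ n ∈ N, (n, z) ∈ E := by
    intro z
    rw [hΓN, mem_snd]
    constructor
    · rintro ⟨n, hn⟩
      exact ⟨n, n.2, hmN.1 hn⟩
    · rintro ⟨n, hn, hz⟩
      exact ⟨⟨n, hn⟩, hmN.2 hz⟩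
  have hΓNΓ : ΓN ≤ Γ := by
    intro z hz
    obtain ⟨n, _, hn⟩ := (hmΓN z).1 hz
    exact mem_snd.2 ⟨n, hn⟩
  have hnormN : ∀ g ∈ Γ, ∀ a ∈ ΓN, g * a * g⁻¹ ∈ ΓN := by
    intro g hg a ha
    obtain ⟨k, hk⟩ := mem_snd.1 hg
    obtain ⟨n, hn, hna⟩ := (hmΓN a).1 ha
    refine (hmΓN _).2 ⟨k * n * k⁻¹, (inferInstance : N.Normal).conj_mem n hn k, ?_⟩
    exact E.mul_mem (E.mul_mem hk hna) (E.inv_mem hk)
  have hMN : Metab ΓN := hN EN (by
      rintro ⟨g, z⟩ hy
      exact hE _ (hmN.1 hy)) (by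
      rcases hK with h | ⟨b, hb, hbf, hcen, hz⟩
      · exact Or.inl fun z hz => h z (hmN.1 hz)
      · refine Or.inr ⟨b, hmN.2 hb, hbf, ?_, fun z h => hz z (hmN.1 h)⟩
        rintro ⟨g, z⟩ hy
        exact hcen _ (hmN.1 hy))
  set EQ := E.map ((QuotientGroup.mk' N).prodMap (MonoidHom.id (Equiv.Perm ℝ))) with hEQ
  have hmQ : ∀ {q : G ⧸ N} {z : Equiv.Perm ℝ}, (q, z) ∈ EQ ↔
      ∃ g : G, QuotientGroup.mk' N g = q ∧ (g, z) ∈ E := by
    intro q z
    constructor
    · rintro ⟨⟨h, z'⟩, hy, he⟩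
      simp only [MonoidHom.coe_prodMap, Prod.map_apply, MonoidHom.id_apply, Prod.mk.injEq] at he
      obtain ⟨h1, rfl⟩ := he
      exact ⟨h, h1, hy⟩
    · rintro ⟨h, rfl, hh⟩
      exact ⟨(h, z), hh, rfl⟩
  have hmQ1 : ∀ z : Equiv.Perm ℝ, ((1 : G ⧸ N), z) ∈ EQ ↔ z ∈ ΓN := by
    intro z
    rw [hmQ, hmΓN]
    constructor
    · rintro ⟨g, hg, hz⟩
      exact ⟨g, (QuotientGroup.eq_one_iff g).1 hg, hz⟩
    · rintro ⟨n, hn, hz⟩
      exact ⟨n, (QuotientGroup.eq_one_iff n).2 hn, hz⟩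
  have hEQan : ∀ y ∈ EQ, An y.2 := by
    rintro ⟨q, z⟩ hy
    obtain ⟨g, -, hg⟩ := hmQ.1 hy
    exact hE _ hg
  have finish : KerNorm EQ → Metab Γ := by
    intro hk
    refine Metab.mono ?_ (hQ EQ hEQan hk)
    intro z hz
    obtain ⟨g, hg⟩ := mem_snd.1 hz
    exact mem_snd.2 ⟨QuotientGroup.mk' N g, hmQ.2 ⟨g, rfl, hg⟩⟩
  by_cases htriv : ∀ z ∈ ΓN, z = 1
  · exact finish (Or.inl fun z hz => htriv z ((hmQ1 z).1 hz))
  · push Not at htriv
    rcases normal_metab hAn hΓNΓ hnormN hMN htriv with h | ⟨b, hb, hgen, hbf, hcen⟩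
    · exact h
    · refine finish (Or.inr ⟨b, (hmQ1 b).2 hb, hbf, ?_, fun z hz => hgen z ((hmQ1 z).1 hz)⟩)
      rintro ⟨q, z⟩ hy
      obtain ⟨g, -, hg⟩ := hmQ.1 hy
      exact hcen z (mem_snd.2 ⟨g, hg⟩)

theorem closedClass_phi : ClosedClass Phi where
  base := phi_base
  sub := phi_sub
  quot := phi_quot
  ext := phi_ext
  union := phi_union

/-- groups of increasing analytic bijections in the class are metabelian -/
theorem tame_metab (G : Subgroup (Equiv.Perm ℝ)) (hG : AnGrp G) (hT : Tame G) : Metab G := by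
  have hΦ : Phi G := hT Phi closedClass_phi
  set E : Subgroup (G × Equiv.Perm ℝ) := ((MonoidHom.id G).prod G.subtype).range with hE
  have hmem : ∀ {g : G} {z : Equiv.Perm ℝ}, (g, z) ∈ E ↔ (g : Equiv.Perm ℝ) = z := by
    intro g z
    constructor
    · rintro ⟨k, hk⟩
      simp only [MonoidHom.prod_apply, MonoidHom.id_apply, Subgroup.coe_subtype,
        Prod.mk.injEq] at hk
      rw [← hk.1, ← hk.2]
    · rintro rfl
      exact ⟨g, rfl⟩
  refine Metab.mono ?_ (hΦ E ?_ ?_)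
  · intro z hz
    exact mem_snd.2 ⟨⟨z, hz⟩, hmem.2 rfl⟩
  · rintro ⟨g, z⟩ hy
    have := hmem.1 hy
    simp only at this ⊢
    rw [← this]
    exact hG g g.2
  · left
    intro z hz
    have := hmem.1 hz
    rw [← this]
    rfl

theorem derived_two {K : Type*} [Group K]
    (h : ∀ a b c d : K, (a * b * a⁻¹ * b⁻¹) * (c * d * c⁻¹ * d⁻¹) =
      (c * d * c⁻¹ * d⁻¹) * (a * b * a⁻¹ * b⁻¹)) : derivedSeries K 2 = ⊥ := by
  rw [derivedSeries_succ, Subgroup.commutator_eq_bot_iff_le_centralizer, derivedSeries_one]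
  have hcl : commutator K = Subgroup.closure {z | ∃ a b : K, z = a * b * a⁻¹ * b⁻¹} := by
    rw [commutator_eq_closure]
    congr 1
    ext z
    simp only [commutatorSet, Set.mem_ofPred_eq, commutatorElement_def]
    constructor
    · rintro ⟨a, b, rfl⟩; exact ⟨a, b, rfl⟩
    · rintro ⟨a, b, rfl⟩; exact ⟨a, b, rfl⟩
  have hc := closure_comm (S := {z | ∃ a b : K, z = a * b * a⁻¹ * b⁻¹}) (by
    rintro _ ⟨a, b, rfl⟩ _ ⟨c, d, rfl⟩
    exact h a b c d)
  rw [hcl]
  intro a ha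
  rw [Subgroup.mem_centralizer_iff]
  intro b hb
  exact hc b hb a ha

end Pool.Agent.Helper43.Tits
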