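import Mathlib

set_option autoImplicit false

/-!
Hoelder's theorem: a group with an archimedean bi-invariant total order is commutative
(in terms of its positive cone), and uniqueness up to scaling of order embeddings into the reals.
-/

namespace Pool.Agent.Helper43.Tits

section Cone

variable {H : Type*} [Group H] (P : H → Prop)

/-- Archimedean bi-invariant positive cone. -/
structure ArchCone : Prop where
  tri : ∀ g, g = 1 ∨ P g ∨ P g⁻¹
  irr : ¬ P 1
  mul : ∀ g h, P g → P h → P (g * h)
  conj : ∀ g h, P g → P (h * g * h⁻¹)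
  arch : ∀ g h, P g → ∃ n : ℕ, P (g ^ n * h⁻¹)

variable {P}

/-- strict order of the cone -/
def clt (P : H → Prop) (a b : H) : Prop := P (b * a⁻¹)

theorem clt_trans (hP : ArchCone P) {a b c : H} (h1 : clt P a b) (h2 : clt P b c) :
    clt P a c := by
  have := hP.mul _ _ h2 h1
  unfold clt
  convert this using 1
  group

theorem clt_irr (hP : ArchCone P) (a : H) : ¬ clt P a a := by
  unfold clt
  rw [mul_inv_cancel]
  exact hP.irr

theorem clt_tri (hP : ArchCone P) (a b : H) : a = b ∨ clt P a b ∨ clt P b a := by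
  rcases hP.tri (b * a⁻¹) with h | h | h
  · left
    rw [mul_inv_eq_one] at h
    exact h.symm
  · right; left; exact h
  · right; right
    unfold clt
    rwa [mul_inv_rev, inv_inv] at h

theorem clt_mul_right {a b : H} (h : clt P a b) (c : H) : clt P (a * c) (b * c) := by
  unfold clt at *
  convert h using 1
  group

theorem clt_mul_left (hP : ArchCone P) {a b : H} (h : clt P a b) (c : H) :
    clt P (c * a) (c * b) := by
  unfold clt at *
  convert hP.conj _ c h using 1
  group

theorem clt_mul (hP : ArchCone P) {a b c d : H} (h : clt P a b) (h' : clt P c d) :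
    clt P (a * c) (b * d) :=
  clt_trans hP (clt_mul_right h c) (clt_mul_left hP h' b)

theorem clt_mul_of_le (hP : ArchCone P) {a b c d : H} (h : ¬ clt P b a) (h' : ¬ clt P d c) :
    ¬ clt P (b * d) (a * c) := by
  intro hh
  rcases clt_tri hP a b with h1 | h1 | h1
  · subst h1
    rcases clt_tri hP c d with h2 | h2 | h2
    · subst h2; exact clt_irr hP _ hh
    · exact clt_irr hP _ (clt_trans hP hh (clt_mul_left hP h2 a))
    · exact h' h2
  · rcases clt_tri hP c d with h2 | h2 | h2
    · subst h2; exact clt_irr hP _ (clt_trans hP hh (clt_mul_right h1 c))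
    · exact clt_irr hP _ (clt_trans hP hh (clt_mul hP h1 h2))
    · exact h' h2
  · exact h h1

theorem clt_pow (hP : ArchCone P) {e : H} (he : P e) (m : ℤ) : clt P (e ^ m) (e ^ (m + 1)) := by
  unfold clt
  convert he using 1
  rw [← zpow_neg, ← zpow_add]
  norm_num

theorem clt_zpow_lt (hP : ArchCone P) {e : H} (he : P e) {m n : ℤ} (h : m < n) :
    clt P (e ^ m) (e ^ n) := by
  obtain ⟨k, rfl⟩ : ∃ k : ℕ, n = m + 1 + k := ⟨(n - (m + 1)).toNat, by omega⟩
  clear h
  induction k with
  | zero => simpa using clt_pow hP he m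
  | succ k ih =>
    have := clt_pow hP he (m + 1 + k)
    rw [show m + 1 + ((k + 1 : ℕ) : ℤ) = m + 1 + k + 1 by push_cast; ring]
    exact clt_trans hP ih this

theorem exists_floor (hP : ArchCone P) {e : H} (he : P e) (g : H) :
    ∃ m : ℤ, ¬ clt P g (e ^ m) ∧ clt P g (e ^ (m + 1)) := by
  obtain ⟨n, hn⟩ := hP.arch e g he
  obtain ⟨k, hk⟩ := hP.arch e g⁻¹ he
  have hb : ∃ b : ℤ, ∀ z : ℤ, ¬ clt P g (e ^ z) → z ≤ b := by
    refine ⟨n, fun z hz => ?_⟩
    by_contra hlt
    push Not at hlt
    apply hz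
    have h1 : clt P g (e ^ (n : ℤ)) := by
      unfold clt; simpa using hn
    exact clt_trans hP h1 (clt_zpow_lt hP he hlt)
  have hi : ∃ z : ℤ, ¬ clt P g (e ^ z) := by
    refine ⟨-k, fun h => ?_⟩
    -- e^k * g > 1
    have h1 : P (e ^ k * g) := by simpa using hk
    have h2 : clt P (e ^ (-(k : ℤ))) g := by
      unfold clt
      have := hP.conj _ g h1
      convert this using 1
      rw [zpow_neg, inv_inv, zpow_natCast]
      group
    exact clt_irr hP _ (clt_trans hP h h2)
  obtain ⟨m, hm1, hm2⟩ := Int.exists_greatest_of_bdd hb hi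
  refine ⟨m, hm1, ?_⟩
  by_contra h
  have := hm2 _ h
  omega

/-- Hoelder: an archimedean bi-ordered group is commutative. -/
theorem holder_comm (hP : ArchCone P) (a b : H) : a * b = b * a := by
  -- it suffices to exclude P [a,b]
  have key : ∀ a b : H, ¬ P (a * b * (b * a)⁻¹) := by
    intro a b hc
    set c := a * b * (b * a)⁻¹ with hcdef
    -- small element
    have hsmall : (∃ e, P e ∧ ¬ clt P c (e ^ (2 : ℤ))) ∨ (∃ e, P e ∧ ∀ g, P g → ¬ clt P g e) := by
      by_cases hex : ∃ e1, P e1 ∧ clt P e1 c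
      · obtain ⟨e1, he1, hlt⟩ := hex
        left
        rcases clt_tri hP e1 (e1⁻¹ * c) with h | h | h
        · refine ⟨e1, he1, ?_⟩
          have : e1 ^ (2 : ℤ) = c := by
            rw [zpow_two]; nth_rewrite 2 [h]; group
          rw [this]; exact clt_irr hP _
        · refine ⟨e1, he1, fun h2 => ?_⟩
          have h3 := clt_mul_left hP h e1
          rw [← zpow_two, mul_inv_cancel_left] at h3
          exact clt_irr hP _ (clt_trans hP h2 h3)
        · refine ⟨e1⁻¹ * c, ?_, fun h2 => ?_⟩
          · -- e1⁻¹ c > 1 from e1 < c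
            have h4 := hP.conj _ e1⁻¹ hlt
            convert h4 using 1
            group
          · have h3 := clt_mul_right h (e1⁻¹ * c)
            rw [← zpow_two, mul_inv_cancel_left] at h3
            exact clt_irr hP _ (clt_trans hP h2 h3)
      · right
        push Not at hex
        exact ⟨c, hc, hex⟩
    rcases hsmall with ⟨e, he, hle⟩ | ⟨e, he, hmin⟩
    · obtain ⟨m, hm1, hm2⟩ := exists_floor hP he a
      obtain ⟨n, hn1, hn2⟩ := exists_floor hP he b
      have h1 : clt P (a * b) (e ^ (m + 1) * e ^ (n + 1)) := clt_mul hP hm2 hn2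
      have h2 : ¬ clt P (b * a) (e ^ n * e ^ m) := clt_mul_of_le hP hn1 hm1
      apply hle
      -- c * (b a) = a b < e^2 * e^(n+m) ≤ e^2 * (b a)
      have h3 : e ^ (m + 1) * e ^ (n + 1) = e ^ (2 : ℤ) * (e ^ n * e ^ m) := by
        simp only [← zpow_add]; congr 1; ring
      rw [h3] at h1
      have h4 : clt P (a * b) (e ^ (2 : ℤ) * (b * a)) := by
        rcases clt_tri hP (b * a) (e ^ n * e ^ m) with h5 | h5 | h5
        · rwa [h5]
        · exact absurd h5 h2
        · exact clt_trans hP h1 (clt_mul_left hP h5 _)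
      have h5 := clt_mul_right h4 (b * a)⁻¹
      rwa [mul_inv_cancel_right] at h5
    · -- cyclic case
      have hcyc : ∀ g : H, ∃ m : ℤ, g = e ^ m := by
        intro g
        obtain ⟨m, hm1, hm2⟩ := exists_floor hP he g
        refine ⟨m, ?_⟩
        rcases clt_tri hP g (e ^ m) with h | h | h
        · exact h
        · exact absurd h hm1
        · exfalso
          have h6 : P (g * (e ^ m)⁻¹) := h
          apply hmin _ h6
          have h7 := clt_mul_right hm2 (e ^ m)⁻¹
          convert h7 using 1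
          rw [zpow_add, zpow_one]
          rw [(Commute.refl e).zpow_left m |>.eq]
          group
      obtain ⟨m, hm⟩ := hcyc a
      obtain ⟨n, hn⟩ := hcyc b
      apply hP.irr
      have : c = 1 := by
        rw [hcdef, hm, hn, ← zpow_add, ← zpow_add, add_comm, mul_inv_cancel]
      rwa [← this]
  rcases hP.tri (a * b * (b * a)⁻¹) with h | h | h
  · rwa [mul_inv_eq_one] at h
  · exact absurd h (key a b)
  · rw [mul_inv_rev, inv_inv] at h
    exact absurd h (key b a)

end Cone

/-- Two additive functions into the reals with the same positive elements are proportional. -/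
theorem prop_of_pos {A : Type*} [Group A] (φ ψ : A → ℝ) (hφ : ∀ a b, φ (a * b) = φ a + φ b)
    (hψ : ∀ a b, ψ (a * b) = ψ a + ψ b) (h : ∀ a, 0 < φ a ↔ 0 < ψ a) :
    ∃ C : ℝ, 0 < C ∧ ∀ a, ψ a = C * φ a := by
  have one0 : ∀ (θ : A → ℝ), (∀ a b, θ (a * b) = θ a + θ b) → θ 1 = 0 := by
    intro θ hθ
    have := hθ 1 1
    rw [mul_one] at this
    linarith
  have inv0 : ∀ (θ : A → ℝ), (∀ a b, θ (a * b) = θ a + θ b) → ∀ a, θ a⁻¹ = - θ a := by
    intro θ hθ a
    have := hθ a a⁻¹
    rw [mul_inv_cancel, one0 θ hθ] at this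
    linarith
  have pow0 : ∀ (θ : A → ℝ), (∀ a b, θ (a * b) = θ a + θ b) → ∀ a (n : ℕ), θ (a ^ n) = n * θ a := by
    intro θ hθ a n
    induction n with
    | zero => simp [one0 θ hθ]
    | succ n ih => rw [pow_succ, hθ, ih]; push_cast; ring
  have zpow0 : ∀ (θ : A → ℝ), (∀ a b, θ (a * b) = θ a + θ b) → ∀ a (n : ℤ), θ (a ^ n) = n * θ a := by
    intro θ hθ a n
    cases n with
    | ofNat n => simpa using pow0 θ hθ a n
    | negSucc n =>
      rw [zpow_negSucc, inv0 θ hθ, pow0 θ hθ]
      push_cast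
      ring
  by_cases hex : ∃ a0, 0 < φ a0
  · obtain ⟨a0, ha0⟩ := hex
    have hb0 : 0 < ψ a0 := (h a0).1 ha0
    refine ⟨ψ a0 / φ a0, by positivity, fun a => ?_⟩
    by_contra hne
    -- general statement: no rational between
    have gen : ∀ (θ η : A → ℝ), (∀ a b, θ (a * b) = θ a + θ b) → (∀ a b, η (a * b) = η a + η b) →
        (∀ a, 0 < θ a ↔ 0 < η a) → 0 < θ a0 → 0 < η a0 → ¬ (θ a / θ a0 < η a / η a0) := by
      intro θ η hθ hη hh h1 h2 hlt
      obtain ⟨q, hq1, hq2⟩ := exists_rat_btwn hlt
      have hden : (0 : ℝ) < q.den := by exact_mod_cast q.den_pos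
      have hqq : (q : ℝ) = q.num / q.den := by exact_mod_cast (Rat.num_div_den q).symm
      rw [hqq] at hq1 hq2
      rw [div_lt_div_iff₀ h1 hden] at hq1
      rw [div_lt_div_iff₀ hden h2] at hq2
      have e1 : θ (a ^ (q.den : ℤ) * a0 ^ (-q.num)) = q.den * θ a - q.num * θ a0 := by
        rw [hθ, zpow0 θ hθ, zpow0 θ hθ]; push_cast; ring
      have e2 : η (a ^ (q.den : ℤ) * a0 ^ (-q.num)) = q.den * η a - q.num * η a0 := by
        rw [hη, zpow0 η hη, zpow0 η hη]; push_cast; ring
      have p2 : 0 < η (a ^ (q.den : ℤ) * a0 ^ (-q.num)) := by rw [e2]; linarith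
      have p1 := (hh _).2 p2
      rw [e1] at p1
      linarith
    have n1 := gen φ ψ hφ hψ h ha0 hb0
    have n2 := gen ψ φ hψ hφ (fun a => (h a).symm) hb0 ha0
    have heq : φ a / φ a0 = ψ a / ψ a0 := le_antisymm (not_lt.1 n2) (not_lt.1 n1)
    apply hne
    field_simp at heq ⊢
    linarith
  · push Not at hex
    have hφ0 : ∀ a, φ a = 0 := by
      intro a
      have h1 := hex a
      have h2 := hex a⁻¹
      rw [inv0 φ hφ] at h2
      linarith
    refine ⟨1, one_pos, fun a => ?_⟩
    have h1 : ¬ 0 < ψ a := by rw [← h a]; simp [hφ0]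
    have h2 : ¬ 0 < ψ a⁻¹ := by rw [← h a⁻¹]; simp [hφ0]
    rw [inv0 ψ hψ] at h2
    rw [hφ0]
    push Not at h1 h2
    linarith

end Pool.Agent.Helper43.Tits
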