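import Pool.Agent.Helper43.Tits.Basic
import Pool.Agent.Helper43.Tits.Holder

set_option autoImplicit false

/-!
Dynamics: limits of orbits, free actions, cyclic quotients, central displacement, ping-pong.
-/

namespace Pool.Agent.Helper43.Tits

open Set Filter Topology

theorem iter_limit_up {f : Equiv.Perm ℝ} (hf : StrictMono f) (hc : Continuous f) {y b : ℝ}
    (hy : y < f y) (hb : ∀ n : ℕ, (f ^ n) y ≤ b) : ∃ L, y < L ∧ L ≤ b ∧ f L = L ∧
      Tendsto (fun n : ℕ => (f ^ n) y) atTop (𝓝 L) := by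
  have hm := iter_strictMono hf hy
  have hbd : BddAbove (range fun n : ℕ => (f ^ n) y) := ⟨b, by rintro _ ⟨n, rfl⟩; exact hb n⟩
  have ht := tendsto_atTop_ciSup hm.monotone hbd
  set L := ⨆ n : ℕ, (f ^ n) y with hL
  refine ⟨L, ?_, ciSup_le hb, ?_, ht⟩
  · have h1 : (f ^ 1) y ≤ L := le_ciSup hbd 1
    simp only [pow_one] at h1
    exact lt_of_lt_of_le hy h1
  · have h2 : Tendsto (fun n : ℕ => (f ^ (n + 1)) y) atTop (𝓝 L) :=
      (tendsto_add_atTop_iff_nat 1).2 ht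
    have h3 : Tendsto (fun n : ℕ => (f ^ (n + 1)) y) atTop (𝓝 (f L)) := by
      simp only [pow_apply_succ]
      exact (hc.tendsto L).comp ht
    exact tendsto_nhds_unique h3 h2

theorem iter_limit_down {f : Equiv.Perm ℝ} (hf : StrictMono f) (hc : Continuous f) {y b : ℝ}
    (hy : f y < y) (hb : ∀ n : ℕ, b ≤ (f ^ n) y) : ∃ L, L < y ∧ b ≤ L ∧ f L = L ∧
      Tendsto (fun n : ℕ => (f ^ n) y) atTop (𝓝 L) := by
  have hm := iter_strictAnti hf hy
  have hbd : BddBelow (range fun n : ℕ => (f ^ n) y) := ⟨b, by rintro _ ⟨n, rfl⟩; exact hb n⟩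
  have ht := tendsto_atTop_ciInf hm.antitone hbd
  set L := ⨅ n : ℕ, (f ^ n) y with hL
  refine ⟨L, ?_, le_ciInf hb, ?_, ht⟩
  · have h1 : L ≤ (f ^ 1) y := ciInf_le hbd 1
    simp only [pow_one] at h1
    exact lt_of_le_of_lt h1 hy
  · have h2 : Tendsto (fun n : ℕ => (f ^ (n + 1)) y) atTop (𝓝 L) :=
      (tendsto_add_atTop_iff_nat 1).2 ht
    have h3 : Tendsto (fun n : ℕ => (f ^ (n + 1)) y) atTop (𝓝 (f L)) := by
      simp only [pow_apply_succ]
      exact (hc.tendsto L).comp ht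
    exact tendsto_nhds_unique h3 h2

/-- Hoelder's theorem for groups acting freely on the convex hull of an orbit. -/
theorem free_comm {H : Subgroup (Equiv.Perm ℝ)} (hH : AnGrp H) (x0 : ℝ)
    (hfree : ∀ h ∈ H, h ≠ 1 → ∀ x, (∃ g ∈ H, g x0 ≤ x) → (∃ g ∈ H, x ≤ g x0) → h x ≠ x) :
    ∀ a ∈ H, ∀ b ∈ H, a * b = b * a := by
  have hull : ∀ {z u v : ℝ}, (∃ g ∈ H, g x0 = u) → (∃ g ∈ H, g x0 = v) → z ∈ uIcc u v →
      (∃ g ∈ H, g x0 ≤ z) ∧ (∃ g ∈ H, z ≤ g x0) := by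
    rintro z u v ⟨g, hg, rfl⟩ ⟨g', hg', rfl⟩ hz
    rw [mem_uIcc] at hz
    rcases hz with ⟨h1, h2⟩ | ⟨h1, h2⟩
    · exact ⟨⟨g, hg, h1⟩, ⟨g', hg', h2⟩⟩
    · exact ⟨⟨g', hg', h1⟩, ⟨g, hg, h2⟩⟩
  have h0 : ∃ g ∈ H, g x0 = x0 := ⟨1, H.one_mem, by simp⟩
  have sgn : ∀ g ∈ H, g ≠ 1 → ∀ u v, (∃ g ∈ H, g x0 = u) → (∃ g ∈ H, g x0 = v) →
      (u < g u ↔ v < g v) := by
    intro g hg h1 u v hu hv
    refine sign_const (hH g hg).cont fun z hz => ?_
    exact hfree g hg h1 z (hull hu hv hz).1 (hull hu hv hz).2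
  let P : H → Prop := fun g => x0 < (g : Equiv.Perm ℝ) x0
  have hP : ArchCone P := by
    constructor
    · intro g
      by_cases h1 : g = 1
      · exact Or.inl h1
      right
      have h1' : (g : Equiv.Perm ℝ) ≠ 1 := fun h => h1 (Subtype.ext h)
      have h2 := hfree g g.2 h1' x0 ⟨1, H.one_mem, by simp⟩ ⟨1, H.one_mem, by simp⟩
      rcases lt_or_gt_of_ne h2 with h3 | h3
      · right
        have := inv_strictMono (hH g g.2).2 h3
        rw [inv_ap] at this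
        simpa [P] using this
      · exact Or.inl h3
    · simp [P]
    · intro g h hg hh
      have := (hH g g.2).2 hh
      simp only [P, Subgroup.coe_mul, Equiv.Perm.mul_apply]
      exact lt_trans hg this
    · intro g h hg
      have h1' : (g : Equiv.Perm ℝ) ≠ 1 := by
        rintro h
        simp only [P, h, Equiv.Perm.one_apply, lt_self_iff_false] at hg
      have hy : ∃ g ∈ H, g x0 = (h : Equiv.Perm ℝ)⁻¹ x0 := ⟨(h : Equiv.Perm ℝ)⁻¹, H.inv_mem h.2, rfl⟩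
      have h2 := (sgn g g.2 h1' _ _ h0 hy).1 hg
      have h3 := (hH h h.2).2 h2
      rw [ap_inv] at h3
      simpa [P, Equiv.Perm.mul_apply] using h3
    · intro g h hg
      have h1' : (g : Equiv.Perm ℝ) ≠ 1 := by
        rintro h
        simp only [P, h, Equiv.Perm.one_apply, lt_self_iff_false] at hg
      set y := (h : Equiv.Perm ℝ)⁻¹ x0 with hydef
      have hy : ∃ g ∈ H, g x0 = y := ⟨(h : Equiv.Perm ℝ)⁻¹, H.inv_mem h.2, rfl⟩
      have h2 := (sgn g g.2 h1' _ _ h0 hy).1 hg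
      by_contra hcon
      push Not at hcon
      have hb : ∀ n : ℕ, ((g : Equiv.Perm ℝ) ^ n) y ≤ x0 := by
        intro n
        have := hcon n
        simp only [P, Subgroup.coe_mul, Subgroup.coe_pow, Subgroup.coe_inv, Equiv.Perm.mul_apply,
          not_lt] at this
        exact this
      obtain ⟨L, hL1, hL2, hL3, -⟩ := iter_limit_up (hH g g.2).2 (hH g g.2).cont h2 hb
      refine hfree g g.2 h1' L ⟨(h : Equiv.Perm ℝ)⁻¹, H.inv_mem h.2, hL1.le⟩
        ⟨1, H.one_mem, by simpa using hL2⟩ hL3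
  intro a ha b hb
  have := holder_comm hP ⟨a, ha⟩ ⟨b, hb⟩
  exact congrArg Subtype.val this

end Pool.Agent.Helper43.Tits
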