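import Pool.Agent.Helper43.Tits.Dyn

set_option autoImplicit false

/-!
Cyclic action on invariant discrete sets, displacement of central fixed point free maps,
ping-pong for semigroups.
-/

namespace Pool.Agent.Helper43.Tits

open Set Filter Topology

theorem zpow_strictMono {f : Equiv.Perm ℝ} (hf : StrictMono f) (n : ℤ) :
    StrictMono (⇑(f ^ n)) := by
  cases n with
  | ofNat n => simpa using pow_strictMono hf n
  | negSucc n => rw [zpow_negSucc]; exact inv_strictMono (pow_strictMono hf (n + 1))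

theorem zpow_lt_succ {f : Equiv.Perm ℝ} (hf : StrictMono f) {x : ℝ} (hx : x < f x) (n : ℤ) :
    (f ^ n) x < (f ^ (n + 1)) x := by
  rw [zpow_add, zpow_one, Equiv.Perm.mul_apply]
  exact zpow_strictMono hf n hx

theorem zpow_iter_strictMono {f : Equiv.Perm ℝ} (hf : StrictMono f) {x : ℝ} (hx : x < f x) :
    StrictMono (fun n : ℤ => (f ^ n) x) :=
  strictMono_int_of_lt_succ (zpow_lt_succ hf hx)

/-- integer floor along an orbit which is unbounded in both directions -/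
theorem exists_zfloor {f : Equiv.Perm ℝ} (hf : StrictMono f) {x : ℝ} (hx : x < f x)
    (hup : ∀ b : ℝ, ∃ n : ℕ, b < (f ^ n) x) (hdown : ∀ b : ℝ, ∃ n : ℕ, (f⁻¹ ^ n) x < b) (t : ℝ) :
    ∃ m : ℤ, (f ^ m) x ≤ t ∧ t < (f ^ (m + 1)) x := by
  have hmono := zpow_iter_strictMono hf hx
  obtain ⟨n, hn⟩ := hup t
  obtain ⟨k, hk⟩ := hdown t
  have hb : ∃ b : ℤ, ∀ z : ℤ, (f ^ z) x ≤ t → z ≤ b := by
    refine ⟨n, fun z hz => ?_⟩
    by_contra hlt
    push Not at hlt
    have := hmono hlt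
    simp only [zpow_natCast] at this
    linarith
  have hi : ∃ z : ℤ, (f ^ z) x ≤ t := by
    refine ⟨-k, ?_⟩
    rw [zpow_neg, zpow_natCast, ← inv_pow]
    exact hk.le
  obtain ⟨m, hm1, hm2⟩ := Int.exists_greatest_of_bdd hb hi
  refine ⟨m, hm1, ?_⟩
  by_contra h
  have := hm2 _ (not_lt.1 h)
  omega

theorem exists_min_of_disc {S F : Set ℝ} (hF : Disc F) (hSF : S ⊆ F) (hne : S.Nonempty)
    (hbd : BddBelow S) : ∃ s ∈ S, ∀ t ∈ S, s ≤ t := by
  obtain ⟨ε, hε, hx⟩ := hF (sInf S)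
  obtain ⟨s, hs, hlt⟩ := exists_lt_of_csInf_lt hne (show sInf S < sInf S + ε by linarith)
  have hle : sInf S ≤ s := csInf_le hbd hs
  have h1 := hx s (hSF hs) (by rw [abs_lt]; constructor <;> linarith)
  exact ⟨s, hs, fun t ht => h1 ▸ csInf_le hbd ht⟩

/-- Elements of a group preserving a discrete set commute on it. -/
theorem comm_on_disc {G : Subgroup (Equiv.Perm ℝ)} (hG : AnGrp G) {F : Set ℝ} (hF : Disc F)
    (hinv : ∀ g ∈ G, ∀ y ∈ F, g y ∈ F) {a b : Equiv.Perm ℝ} (ha : a ∈ G) (hb : b ∈ G) {p : ℝ}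
    (hp : p ∈ F) : a (b p) = b (a p) := by
  have hfix : ∀ g ∈ G, g p = p → ∀ q ∈ F, g q = q := by
    intro g hg hgp q hq
    exact fix_of_inv hF (hG g hg).2 (hinv g hg) (hinv g⁻¹ (G.inv_mem hg)) hgp hq
  by_cases hS : ∃ g ∈ G, p < g p
  · -- minimal positive shift
    have hne : ({s | ∃ g ∈ G, s = g p ∧ p < g p} : Set ℝ).Nonempty := by
      obtain ⟨g, hg, hgp⟩ := hS
      exact ⟨g p, g, hg, rfl, hgp⟩
    obtain ⟨s, ⟨c, hc, rfl, hcp⟩, hmin⟩ := exists_min_of_disc hF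
      (S := {s | ∃ g ∈ G, s = g p ∧ p < g p}) (by rintro _ ⟨g, hg, rfl, -⟩; exact hinv g hg p hp)
      hne ⟨p, by rintro _ ⟨g, hg, rfl, h⟩; exact h.le⟩
    have hcm := (hG c hc).2
    have hup : ∀ b : ℝ, ∃ n : ℕ, b < (c ^ n) p := by
      intro t
      by_contra hcon
      push Not at hcon
      exact disc_no_mono hF _ (fun n => pow_mem_of_inv (hinv c hc) hp n)
        (iter_strictMono hcm hcp) t hcon
    have hdown : ∀ b : ℝ, ∃ n : ℕ, (c⁻¹ ^ n) p < b := by
      intro t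
      by_contra hcon
      push Not at hcon
      have h1 : c⁻¹ p < p := by
        have := inv_strictMono hcm hcp
        rwa [inv_ap] at this
      exact disc_no_anti hF _ (fun n => pow_mem_of_inv (hinv c⁻¹ (G.inv_mem hc)) hp n)
        (iter_strictAnti (inv_strictMono hcm) h1) t hcon
    have hall : ∀ g ∈ G, ∃ m : ℤ, ∀ q ∈ F, g q = (c ^ m) q := by
      intro g hg
      obtain ⟨m, hm1, hm2⟩ := exists_zfloor hcm hcp hup hdown (g p)
      refine ⟨m, ?_⟩
      have hgm : (c ^ (-m)) * g ∈ G := G.mul_mem (G.zpow_mem hc _) hg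
      have h1 : p ≤ ((c ^ (-m)) * g) p := by
        have := (zpow_strictMono hcm (-m)).monotone hm1
        rw [← Equiv.Perm.mul_apply, ← zpow_add] at this
        simpa [Equiv.Perm.mul_apply] using this
      have h2 : ((c ^ (-m)) * g) p < c p := by
        have := zpow_strictMono hcm (-m) hm2
        rw [← Equiv.Perm.mul_apply (c ^ (-m)) (c ^ (m + 1)), ← zpow_add] at this
        simpa [Equiv.Perm.mul_apply] using this
      have h3 : ((c ^ (-m)) * g) p = p := by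
        rcases eq_or_lt_of_le h1 with h4 | h4
        · exact h4.symm
        · have := hmin _ ⟨_, hgm, rfl, h4⟩
          exact absurd h2 (not_lt.2 this)
      intro q hq
      have h4 := hfix _ hgm h3 q hq
      rw [Equiv.Perm.mul_apply, zpow_neg, Equiv.Perm.inv_eq_iff_eq] at h4
      exact h4
    obtain ⟨m, hm⟩ := hall a ha
    obtain ⟨n, hn⟩ := hall b hb
    rw [hm _ (hinv b hb p hp), hn p hp, hn _ (hinv a ha p hp), hm p hp,
      ← Equiv.Perm.mul_apply, ← Equiv.Perm.mul_apply, ← zpow_add, ← zpow_add, add_comm]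
  · push Not at hS
    have h1 : ∀ g ∈ G, g p = p := by
      intro g hg
      apply le_antisymm (hS g hg)
      have := (hG g hg).2.monotone (hS g⁻¹ (G.inv_mem hg))
      rwa [ap_inv] at this
    rw [h1 b hb, h1 a ha, h1 b hb]

theorem unbdd_up {f : Equiv.Perm ℝ} (hf : An f) (hfree : ∀ x, f x ≠ x) {x : ℝ} (hx : x < f x)
    (b : ℝ) : ∃ n : ℕ, b < (f ^ n) x := by
  by_contra hcon
  push Not at hcon
  obtain ⟨L, -, -, h, -⟩ := iter_limit_up hf.2 hf.cont hx hcon
  exact hfree L h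

theorem unbdd_down {f : Equiv.Perm ℝ} (hf : An f) (hfree : ∀ x, f x ≠ x) {x : ℝ} (hx : f x < x)
    (b : ℝ) : ∃ n : ℕ, (f ^ n) x < b := by
  by_contra hcon
  push Not at hcon
  obtain ⟨L, -, -, h, -⟩ := iter_limit_down hf.2 hf.cont hx hcon
  exact hfree L h

theorem inv_free {f : Equiv.Perm ℝ} (hfree : ∀ x, f x ≠ x) : ∀ x, f⁻¹ x ≠ x := by
  intro x hx
  rw [Equiv.Perm.inv_eq_iff_eq] at hx
  exact hfree x hx.symm

theorem free_pos {f : Equiv.Perm ℝ} (hc : Continuous f) (hfree : ∀ x, f x ≠ x) {x : ℝ}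
    (hx : x < f x) (y : ℝ) : y < f y :=
  (sign_const hc (fun z _ => hfree z) (x := x) (y := y)).1 hx

theorem commute_conj {α : Type*} [Group α] {x y b : α} (hxb : x * b = b * x)
    {m : ℤ} (hm : x * y * x⁻¹ * y⁻¹ = b ^ m) (hyb : y * b = b * y) (n : ℕ) :
    x ^ n * y ^ n * (x⁻¹) ^ n * (y⁻¹) ^ n = b ^ (m * n * n) := by
  have hcx : Commute x b := hxb
  have hcy : Commute y b := hyb
  have h1 : x * y * x⁻¹ = b ^ m * y := by rw [← hm]; group
  have h2 : x * y ^ n * x⁻¹ = b ^ (m * n) * y ^ n := by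
    have : x * y ^ n * x⁻¹ = (x * y * x⁻¹) ^ n := (conj_pow).symm
    rw [this, h1, (hcy.symm.zpow_left m).mul_pow, zpow_mul, zpow_natCast]
  have h3 : ∀ k : ℕ, x ^ k * y ^ n * (x⁻¹) ^ k = b ^ (m * n * k) * y ^ n := by
    intro k
    induction k with
    | zero => simp
    | succ k ih =>
      have : x ^ (k + 1) * y ^ n * (x⁻¹) ^ (k + 1) = x * (x ^ k * y ^ n * (x⁻¹) ^ k) * x⁻¹ := by
        rw [pow_succ', pow_succ (x⁻¹)]; group
      rw [this, ih]
      have h4 : x * (b ^ (m * n * k) * y ^ n) * x⁻¹ = b ^ (m * n * k) * (x * y ^ n * x⁻¹) := by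
        have := (hcx.zpow_right (m * n * k)).eq
        calc x * (b ^ (m * n * k) * y ^ n) * x⁻¹ = (x * b ^ (m * n * k)) * y ^ n * x⁻¹ := by group
          _ = (b ^ (m * n * k) * x) * y ^ n * x⁻¹ := by rw [this]
          _ = _ := by group
      rw [h4, h2, ← mul_assoc, ← zpow_add]
      congr 2
      push_cast
      ring
  rw [h3 n, mul_assoc, inv_pow, mul_inv_cancel, mul_one]

/-- A commutator which is a power of a central fixed point free element is trivial. -/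
theorem no_central_comm_pos {G : Subgroup (Equiv.Perm ℝ)} (hG : AnGrp G) {b : Equiv.Perm ℝ}
    (hbG : b ∈ G) (hfree : ∀ x, b x ≠ x) (hb0 : ∀ x, x < b x)
    (hcen : ∀ g ∈ G, g * b = b * g) {x y : Equiv.Perm ℝ} (hx : x ∈ G) (hy : y ∈ G) (m : ℤ)
    (hm : x * y * x⁻¹ * y⁻¹ = b ^ m) : ¬ 1 ≤ m := by
  intro hm1
  have hbm := (hG b hbG).2
  -- displacement bound
  have hdisp : ∀ z ∈ G, ∃ K : ℕ, ∀ t, z t ≤ (b ^ K) t := by
    intro z hz
    obtain ⟨K, hK⟩ := unbdd_up (hG b hbG) hfree (hb0 0) (z (b 0))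
    refine ⟨K, fun t => ?_⟩
    have hdown : ∀ c : ℝ, ∃ n : ℕ, (b⁻¹ ^ n) 0 < c := by
      intro c
      have h1 : b⁻¹ 0 < 0 := by
        have := inv_strictMono hbm (hb0 0)
        rwa [inv_ap] at this
      exact unbdd_down ⟨(hG _ (G.inv_mem hbG)).1, inv_strictMono hbm⟩ (inv_free hfree) h1 c
    obtain ⟨j, hj1, hj2⟩ := exists_zfloor hbm (hb0 0) (unbdd_up (hG b hbG) hfree (hb0 0)) hdown t
    have hzb : Commute z b := hcen z hz
    have h1 : z t ≤ z ((b ^ (j + 1)) 0) := (hG z hz).2.monotone hj2.le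
    have h2 : z ((b ^ (j + 1)) 0) = (b ^ j) (z (b 0)) := by
      rw [← Equiv.Perm.mul_apply, (hzb.zpow_right (j + 1)).eq, Equiv.Perm.mul_apply, zpow_add,
        zpow_one, Equiv.Perm.mul_apply, ← Equiv.Perm.mul_apply b z, ← hcen z hz,
        Equiv.Perm.mul_apply]
    have h3 : (b ^ j) (z (b 0)) ≤ (b ^ j) ((b ^ K) 0) := (zpow_strictMono hbm j).monotone hK.le
    have h4 : (b ^ j) ((b ^ K) 0) = (b ^ K) ((b ^ j) 0) := by
      rw [← Equiv.Perm.mul_apply, ← Equiv.Perm.mul_apply, ← zpow_natCast, ← zpow_add, ← zpow_add,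
        add_comm]
    have h5 : (b ^ K) ((b ^ j) 0) ≤ (b ^ K) t := (pow_strictMono hbm K).monotone hj1
    linarith [h1, h2, h3, h4, h5]
  have hpow : ∀ z ∈ G, ∀ K : ℕ, (∀ t, z t ≤ (b ^ K) t) → ∀ (n : ℕ) (t : ℝ),
      (z ^ n) t ≤ (b ^ (K * n)) t := by
    intro z hz K hK n
    induction n with
    | zero => intro t; simp
    | succ n ih =>
      intro t
      rw [pow_apply_succ, Nat.mul_succ, add_comm, pow_add, Equiv.Perm.mul_apply]
      refine le_trans (hK _) ?_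
      exact (pow_strictMono hbm K).monotone (ih t)
  obtain ⟨K1, hK1⟩ := hdisp x hx
  obtain ⟨K2, hK2⟩ := hdisp y hy
  obtain ⟨K3, hK3⟩ := hdisp x⁻¹ (G.inv_mem hx)
  obtain ⟨K4, hK4⟩ := hdisp y⁻¹ (G.inv_mem hy)
  set n := K1 + K2 + K3 + K4 + 1 with hn
  have hE := commute_conj (hcen x hx) hm (hcen y hy) n
  have hle : (x ^ n * y ^ n * (x⁻¹) ^ n * (y⁻¹) ^ n) 0 ≤ (b ^ ((K1 + K2 + K3 + K4) * n)) 0 := by
    have e1 := hpow x hx K1 hK1 n
    have e2 := hpow y hy K2 hK2 n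
    have e3 := hpow x⁻¹ (G.inv_mem hx) K3 hK3 n
    have e4 := hpow y⁻¹ (G.inv_mem hy) K4 hK4 n
    simp only [Equiv.Perm.mul_apply]
    calc (x ^ n) ((y ^ n) ((x⁻¹ ^ n) ((y⁻¹ ^ n) 0)))
        ≤ (b ^ (K1 * n)) ((y ^ n) ((x⁻¹ ^ n) ((y⁻¹ ^ n) 0))) := e1 _
      _ ≤ (b ^ (K1 * n)) ((b ^ (K2 * n)) ((x⁻¹ ^ n) ((y⁻¹ ^ n) 0))) :=
          (pow_strictMono hbm _).monotone (e2 _)
      _ ≤ (b ^ (K1 * n)) ((b ^ (K2 * n)) ((b ^ (K3 * n)) ((y⁻¹ ^ n) 0))) :=
          (pow_strictMono hbm _).monotone ((pow_strictMono hbm _).monotone (e3 _))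
      _ ≤ (b ^ (K1 * n)) ((b ^ (K2 * n)) ((b ^ (K3 * n)) ((b ^ (K4 * n)) 0))) :=
          (pow_strictMono hbm _).monotone ((pow_strictMono hbm _).monotone
            ((pow_strictMono hbm _).monotone (e4 _)))
      _ = (b ^ ((K1 + K2 + K3 + K4) * n)) 0 := by
          rw [← Equiv.Perm.mul_apply, ← Equiv.Perm.mul_apply, ← Equiv.Perm.mul_apply, ← pow_add,
            ← pow_add, ← pow_add]
          congr 2
          ring
  rw [hE] at hle
  have hlt : (((K1 + K2 + K3 + K4) * n : ℕ) : ℤ) < m * n * n := by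
    have h1 : ((K1 + K2 + K3 + K4 : ℕ) : ℤ) < m * n := by
      have h2 : ((K1 + K2 + K3 + K4 : ℕ) : ℤ) < n := by rw [hn]; push_cast; omega
      nlinarith
    have h3 : (0 : ℤ) < n := by rw [hn]; push_cast; positivity
    push_cast at h1 ⊢
    nlinarith
  have := zpow_iter_strictMono hbm (hb0 0) hlt
  simp only [zpow_natCast] at this
  linarith

theorem no_central_comm {G : Subgroup (Equiv.Perm ℝ)} (hG : AnGrp G) {b : Equiv.Perm ℝ}
    (hbG : b ∈ G) (hfree : ∀ x, b x ≠ x)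
    (hcen : ∀ g ∈ G, g * b = b * g) {x y : Equiv.Perm ℝ} (hx : x ∈ G) (hy : y ∈ G) (m : ℤ)
    (hm : x * y * x⁻¹ * y⁻¹ = b ^ m) : x * y = y * x := by
  have main : ∀ b : Equiv.Perm ℝ, b ∈ G → (∀ x, b x ≠ x) → (∀ x, x < b x) →
      (∀ g ∈ G, g * b = b * g) → ∀ m : ℤ, x * y * x⁻¹ * y⁻¹ = b ^ m → x * y = y * x := by
    intro b hbG hfree hb0 hcen m hm
    have h1 := no_central_comm_pos hG hbG hfree hb0 hcen hx hy m hm
    have h2 := no_central_comm_pos hG hbG hfree hb0 hcen hy hx (-m) (by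
      rw [zpow_neg, ← hm]; group)
    have h3 : m = 0 := by omega
    rw [h3, zpow_zero] at hm
    calc x * y = (x * y * x⁻¹ * y⁻¹) * (y * x) := by group
      _ = y * x := by rw [hm, one_mul]
  rcases lt_or_gt_of_ne (hfree 0) with h | h
  · have hfree' := inv_free hfree
    have h0 : 0 < b⁻¹ 0 := by
      have := inv_strictMono (hG b hbG).2 h
      rwa [inv_ap] at this
    refine main b⁻¹ (G.inv_mem hbG) hfree' (free_pos (hG _ (G.inv_mem hbG)).cont hfree' h0)
      (fun g hg => ?_) (-m) ?_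
    · have : Commute g b := hcen g hg
      exact this.inv_right.eq
    · rw [hm, zpow_neg, inv_zpow, inv_inv]
  · exact main b hbG hfree (free_pos (hG b hbG).cont hfree h) hcen m hm

/-- ping-pong: words in two maps with disjoint images inside a set. -/
theorem pingpong (f : Fin 2 → Equiv.Perm ℝ) {I : Set ℝ} {u : ℝ} (hu : u ∈ I)
    (hmap : ∀ i, ∀ x ∈ I, f i x ∈ I) (hdis : ∀ i j, i ≠ j → ∀ x ∈ I, ∀ y ∈ I, f i x ≠ f j y) :
    (∀ w : FreeMonoid (Fin 2), ∀ x ∈ I, (FreeMonoid.lift f w) x ∈ I) ∧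
    ∀ w1 w2 : FreeMonoid (Fin 2), FreeMonoid.lift f w1 = FreeMonoid.lift f w2 → w1 = w2 := by
  have hI : ∀ w : FreeMonoid (Fin 2), ∀ x ∈ I, (FreeMonoid.lift f w) x ∈ I := by
    intro w
    induction w using FreeMonoid.recOn with
    | one => intro x hx; simpa using hx
    | of_mul i w ih =>
      intro x hx
      rw [map_mul, FreeMonoid.lift_eval_of, Equiv.Perm.mul_apply]
      exact hmap i _ (ih x hx)
  refine ⟨hI, ?_⟩
  intro w1
  induction w1 using FreeMonoid.recOn with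
  | one =>
    intro w2 h
    induction w2 using FreeMonoid.recOn with
    | one => rfl
    | of_mul j w2 _ =>
      exfalso
      obtain ⟨i, hij⟩ : ∃ i : Fin 2, i ≠ j := exists_ne j
      have h1 := congrArg (fun g : Equiv.Perm ℝ => g (f i u)) h
      simp only [map_one, Equiv.Perm.one_apply, map_mul, FreeMonoid.lift_eval_of,
        Equiv.Perm.mul_apply] at h1
      exact hdis i j hij u hu _ (hI w2 _ (hmap i u hu)) h1
  | of_mul i w1 ih =>
    intro w2 h
    induction w2 using FreeMonoid.recOn with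
    | one =>
      exfalso
      obtain ⟨j, hij⟩ : ∃ j : Fin 2, j ≠ i := exists_ne i
      have h1 := congrArg (fun g : Equiv.Perm ℝ => g (f j u)) h
      simp only [map_one, Equiv.Perm.one_apply, map_mul, FreeMonoid.lift_eval_of,
        Equiv.Perm.mul_apply] at h1
      exact hdis j i hij u hu _ (hI w1 _ (hmap j u hu)) h1.symm
    | of_mul j w2 _ =>
      simp only [map_mul, FreeMonoid.lift_eval_of] at h
      by_cases hij : i = j
      · subst hij
        rw [mul_right_inj] at h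
        rw [ih w2 h]
      · exfalso
        have h1 := congrArg (fun g : Equiv.Perm ℝ => g u) h
        simp only [Equiv.Perm.mul_apply] at h1
        exact hdis i j hij _ (hI w1 u hu) _ (hI w2 u hu) h1

end Pool.Agent.Helper43.Tits
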