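import Pool.Agent.Helper43.Tits.Basic

set_option autoImplicit false

/-!
Local expansions of increasing analytic bijections at a fixed point.
-/

namespace Pool.Agent.Helper43.Tits

open Set Filter Topology Asymptotics

/-- `g x - x ~ c (x-p)^r` as `x → p`. -/
def Lead (g : Equiv.Perm ℝ) (p : ℝ) (r : ℕ) (c : ℝ) : Prop :=
  Tendsto (fun x => (g x - x) / (x - p) ^ r) (𝓝[≠] p) (𝓝 c)

/-- analytic factorisation of `g - id` at `p`. -/
def Fac (g : Equiv.Perm ℝ) (p : ℝ) (r : ℕ) (u : ℝ → ℝ) : Prop :=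
  AnalyticAt ℝ u p ∧ ∀ᶠ x in 𝓝 p, g x - x = (x - p) ^ r * u x

theorem exists_fac {g : Equiv.Perm ℝ} {p : ℝ} (hg : An g) (h1 : g ≠ 1) (hp : g p = p) :
    ∃ r : ℕ, 1 ≤ r ∧ ∃ u : ℝ → ℝ, Fac g p r u ∧ u p ≠ 0 := by
  have han : AnalyticAt ℝ (fun x => g x - x) p := (hg.1 p (mem_univ p)).sub analyticAt_id
  have hne : ¬ ∀ᶠ z in 𝓝 p, g z - z = 0 := by
    intro h
    obtain ⟨ε, hε, hx⟩ := disc_fix hg h1 p
    obtain ⟨δ, hδ, hball⟩ := Metric.eventually_nhds_iff.1 h
    have hm : (0 : ℝ) < min ε δ := lt_min hε hδ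
    have h2 : g (p + min ε δ / 2) - (p + min ε δ / 2) = 0 := by
      apply hball
      rw [Real.dist_eq, show p + min ε δ / 2 - p = min ε δ / 2 by ring, abs_of_pos (by positivity)]
      have := min_le_right ε δ
      linarith
    have h3 := hx (p + min ε δ / 2) (by simpa [sub_eq_zero] using h2) (by
      rw [show p + min ε δ / 2 - p = min ε δ / 2 by ring, abs_of_pos (by positivity)]
      have := min_le_left ε δ
      linarith)
    linarith
  obtain ⟨r, u, hu, hu0, hev⟩ := han.exists_eventuallyEq_pow_smul_nonzero_iff.2 hne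
  refine ⟨r, ?_, u, ⟨hu, by simpa [smul_eq_mul] using hev⟩, hu0⟩
  by_contra hr
  have hr0 : r = 0 := by omega
  subst hr0
  have := hev.self_of_nhds
  simp only [hp, sub_self, pow_zero, one_smul] at this
  exact hu0 this.symm

theorem Fac.lead {g : Equiv.Perm ℝ} {p : ℝ} {r : ℕ} {u : ℝ → ℝ} (h : Fac g p r u) :
    Lead g p r (u p) := by
  have h1 : Tendsto u (𝓝[≠] p) (𝓝 (u p)) := h.1.continuousAt.tendsto.mono_left nhdsWithin_le_nhds
  refine h1.congr' ?_
  filter_upwards [h.2.filter_mono nhdsWithin_le_nhds, self_mem_nhdsWithin] with x hx hne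
  have : (x - p) ^ r ≠ 0 := pow_ne_zero _ (sub_ne_zero.2 hne)
  rw [hx]
  field_simp

theorem tendsto_sub_pow {p : ℝ} {k : ℕ} (hk : k ≠ 0) :
    Tendsto (fun x : ℝ => (x - p) ^ k) (𝓝[≠] p) (𝓝 0) := by
  have : Tendsto (fun x : ℝ => (x - p) ^ k) (𝓝 p) (𝓝 ((p - p) ^ k)) :=
    (continuous_id.sub continuous_const).pow k |>.tendsto p
  rw [sub_self, zero_pow hk] at this
  exact this.mono_left nhdsWithin_le_nhds

theorem Lead.lower {g : Equiv.Perm ℝ} {p : ℝ} {r s : ℕ} {c : ℝ} (h : Lead g p s c) (hrs : r < s) :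
    Lead g p r 0 := by
  have h1 := h.mul (tendsto_sub_pow (p := p) (k := s - r) (by omega))
  rw [mul_zero] at h1
  refine h1.congr' ?_
  filter_upwards [self_mem_nhdsWithin] with x hne
  have h0 : x - p ≠ 0 := sub_ne_zero.2 hne
  have h2 : (x - p) ^ s = (x - p) ^ r * (x - p) ^ (s - r) := by
    rw [← pow_add]; congr 1; omega
  rw [h2]
  field_simp

theorem Lead.unique {g : Equiv.Perm ℝ} {p : ℝ} {r : ℕ} {c d : ℝ} (h : Lead g p r c)
    (h' : Lead g p r d) : c = d := tendsto_nhds_unique h h'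

theorem Lead.order_unique {g : Equiv.Perm ℝ} {p : ℝ} {r s : ℕ} {c d : ℝ} (h : Lead g p r c)
    (h' : Lead g p s d) (hc : c ≠ 0) (hd : d ≠ 0) : r = s := by
  rcases lt_trichotomy r s with h1 | h1 | h1
  · exact absurd (h.unique (h'.lower h1)) hc
  · exact h1
  · exact absurd (h'.unique (h.lower h1)) hd

theorem deriv_ratio {g : Equiv.Perm ℝ} {p : ℝ} (hg : An g) (hp : g p = p) :
    Tendsto (fun x => (g x - p) / (x - p)) (𝓝[≠] p) (𝓝 (deriv g p)) := by
  have h := (hg.1 p (mem_univ p)).differentiableAt.hasDerivAt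
  rw [hasDerivAt_iff_tendsto_slope] at h
  refine h.congr fun x => ?_
  rw [slope_def_field, hp]

theorem lead_one {g : Equiv.Perm ℝ} {p : ℝ} (hg : An g) (hp : g p = p) :
    Lead g p 1 (deriv g p - 1) := by
  have h1 := (deriv_ratio hg hp).sub_const 1
  refine h1.congr' ?_
  filter_upwards [self_mem_nhdsWithin] with x hne
  have h0 : x - p ≠ 0 := sub_ne_zero.2 hne
  rw [pow_one]
  field_simp
  ring

theorem Lead.deriv_eq_one {g : Equiv.Perm ℝ} {p : ℝ} (hg : An g) (hp : g p = p) {r : ℕ} {c : ℝ}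
    (h : Lead g p r c) (hr : 2 ≤ r) : deriv g p = 1 := by
  have := (lead_one hg hp).unique (h.lower (r := 1) (by omega))
  linarith

theorem two_le_of_deriv {g : Equiv.Perm ℝ} {p : ℝ} (hg : An g) (hp : g p = p) {r : ℕ} {c : ℝ}
    (h : Lead g p r c) (hc : c ≠ 0) (hr : 1 ≤ r) (hd : deriv g p = 1) : 2 ≤ r := by
  by_contra hlt
  have hr1 : r = 1 := by omega
  subst hr1
  have := h.unique (lead_one hg hp)
  rw [hd, sub_self] at this
  exact hc this

theorem tendsto_ne {g : Equiv.Perm ℝ} {p : ℝ} (hc : Continuous g) (hp : g p = p) :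
    Tendsto g (𝓝[≠] p) (𝓝[≠] p) := by
  apply tendsto_nhdsWithin_of_tendsto_nhds_of_eventually_within
  · have := hc.tendsto p
    rw [hp] at this
    exact this.mono_left nhdsWithin_le_nhds
  · filter_upwards [self_mem_nhdsWithin] with x hne h
    apply hne
    have : g x = g p := by rw [hp]; exact h
    exact g.injective this

theorem deriv_mul {g h : Equiv.Perm ℝ} {p : ℝ} (hg : An g) (hh : An h) (hhp : h p = p) :
    deriv (⇑(g * h)) p = deriv g p * deriv h p := by
  have h1 : HasDerivAt h (deriv h p) p := (hh.1 p (mem_univ p)).differentiableAt.hasDerivAt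
  have h2 : HasDerivAt g (deriv g p) (h p) := by
    rw [hhp]; exact (hg.1 p (mem_univ p)).differentiableAt.hasDerivAt
  have h3 := h2.comp p h1
  rw [Equiv.Perm.coe_mul]
  exact h3.deriv

theorem deriv_pos {g : Equiv.Perm ℝ} {p : ℝ} (hg : An g) (hg' : An g⁻¹) (hp : g p = p) :
    0 < deriv g p := by
  have h1 := deriv_mul hg' hg hp
  rw [inv_mul_cancel] at h1
  have h2 : deriv (⇑(1 : Equiv.Perm ℝ)) p = 1 := by
    rw [Equiv.Perm.coe_one]; exact deriv_id p
  rw [h2] at h1
  have h3 : 0 ≤ deriv g p := hg.2.monotone.deriv_nonneg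
  rcases eq_or_lt_of_le h3 with h4 | h4
  · rw [← h4] at h1; simp at h1
  · exact h4

/-- change of variables -/
theorem change_var {φ : Equiv.Perm ℝ} {p : ℝ} (hφ : An φ) (hφ' : An φ⁻¹) (hp : φ p = p)
    {T : ℝ → ℝ} {m : ℕ} {c : ℝ} (h : Tendsto (fun x => T x / (x - p) ^ m) (𝓝[≠] p) (𝓝 c)) :
    Tendsto (fun y => T (φ⁻¹ y) / (y - p) ^ m) (𝓝[≠] p) (𝓝 (c / (deriv φ p) ^ m)) := by
  have hμ := deriv_pos hφ hφ' hp
  have h1 := (deriv_ratio hφ hp).pow m
  have h2 := h.div h1 (pow_ne_zero _ hμ.ne')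
  have h3 := h2.comp (tendsto_ne hφ'.cont (inv_fix hp))
  refine h3.congr' ?_
  filter_upwards [self_mem_nhdsWithin] with y hne
  have h0 : y - p ≠ 0 := sub_ne_zero.2 hne
  have h4 : φ⁻¹ y - p ≠ 0 := by
    rw [sub_ne_zero]
    intro h
    rw [Equiv.Perm.inv_eq_iff_eq, hp] at h
    exact hne h
  simp only [Function.comp, Pi.div_apply, ap_inv]
  rw [div_pow]
  field_simp

theorem lead_conj {g n : Equiv.Perm ℝ} {p : ℝ} {r : ℕ} {c : ℝ} (hg : An g) (hg' : An g⁻¹)
    (hn : An n) (hp : g p = p) (hnp : n p = p) (h : Lead n p r c) :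
    Lead (g * n * g⁻¹) p r (deriv g p * c / (deriv g p) ^ r) := by
  have hT : Tendsto (fun x => (g (n x) - g x) / (x - p) ^ r) (𝓝[≠] p) (𝓝 (deriv g p * c)) := by
    have hs : HasStrictDerivAt g (deriv g p) p := (hg.1 p (mem_univ p)).hasStrictDerivAt
    have ho := hs.isLittleO
    have ht : Tendsto (fun x : ℝ => (n x, x)) (𝓝[≠] p) (𝓝 (p, p)) := by
      rw [nhds_prod_eq]
      refine Tendsto.prodMk ?_ (tendsto_id.mono_left nhdsWithin_le_nhds)
      have := hn.cont.tendsto p
      rw [hnp] at this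
      exact this.mono_left nhdsWithin_le_nhds
    have ho2 := ho.comp_tendsto ht
    have hO : (fun x => n x - x) =O[𝓝[≠] p] (fun x => (x - p) ^ r) := by
      have := h.isBigO_one ℝ
      have h2 := this.mul (isBigO_refl (fun x : ℝ => (x - p) ^ r) (𝓝[≠] p))
      refine (h2.congr' ?_ ?_)
      · filter_upwards [self_mem_nhdsWithin] with x hne
        have h0 : (x - p) ^ r ≠ 0 := pow_ne_zero _ (sub_ne_zero.2 hne)
        field_simp
      · filter_upwards with x
        ring
    have ho3 := (ho2.trans_isBigO (g := fun x : ℝ => n x - x) (by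
      simpa [Function.comp_def] using isBigO_refl (fun x : ℝ => n x - x) (𝓝[≠] p))).trans_isBigO hO
    have ho4 := ho3.tendsto_div_nhds_zero
    have h5 := ho4.add (h.const_mul (deriv g p))
    rw [zero_add] at h5
    refine h5.congr' ?_
    filter_upwards with x
    simp only [Function.comp_def, ContinuousLinearMap.toSpanSingleton_apply, smul_eq_mul]
    ring
  have h6 := change_var hg hg' hp hT
  refine h6.congr' ?_
  filter_upwards with y
  simp only [Equiv.Perm.mul_apply, ap_inv]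

theorem lead_mul {n m : Equiv.Perm ℝ} {p : ℝ} {r : ℕ} {c d : ℝ} (hm : An m)
    (hmp : m p = p) (hmd : deriv m p = 1) (h : Lead n p r c) (h' : Lead m p r d) :
    Lead (n * m) p r (c + d) := by
  have h1 := h.comp (tendsto_ne hm.cont hmp)
  have h2 := (deriv_ratio hm hmp).pow r
  rw [hmd, one_pow] at h2
  have h3 := (h1.mul h2).add h'
  rw [mul_one] at h3
  refine h3.congr' ?_
  filter_upwards [self_mem_nhdsWithin] with x hne
  have h0 : x - p ≠ 0 := sub_ne_zero.2 hne
  have h4 : m x - p ≠ 0 := by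
    rw [sub_ne_zero]
    intro h
    apply hne
    exact m.injective (by rw [hmp]; exact h)
  simp only [Function.comp, Equiv.Perm.mul_apply]
  rw [div_pow]
  field_simp
  ring

theorem lead_id (p : ℝ) (r : ℕ) : Lead 1 p r 0 := by
  unfold Lead
  simp

/-- increments of `(z-p)^r u(z)` -/
theorem increment {p : ℝ} {r s : ℕ} {u y N : ℝ → ℝ} {w : ℝ} (hr : 1 ≤ r) (hs : 2 ≤ s)
    (hu : AnalyticAt ℝ u p) (hN : ∀ᶠ z in 𝓝 p, N z = (z - p) ^ r * u z)
    (hy : Tendsto y (𝓝[≠] p) (𝓝 p))
    (hw : Tendsto (fun x => (y x - x) / (x - p) ^ s) (𝓝[≠] p) (𝓝 w)) :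
    Tendsto (fun x => (N (y x) - N x) / (x - p) ^ (r + s - 1)) (𝓝[≠] p) (𝓝 (r * u p * w)) := by
  -- ratio (y-p)/(x-p) → 1
  have hrat : Tendsto (fun x => (y x - p) / (x - p)) (𝓝[≠] p) (𝓝 1) := by
    have h1 := (hw.mul (tendsto_sub_pow (p := p) (k := s - 1) (by omega))).add_const 1
    rw [mul_zero, zero_add] at h1
    refine h1.congr' ?_
    filter_upwards [self_mem_nhdsWithin] with x hne
    have h0 : x - p ≠ 0 := sub_ne_zero.2 hne
    have h2 : (x - p) ^ s = (x - p) ^ (s - 1) * (x - p) := by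
      rw [← pow_succ]; congr 1; omega
    rw [h2]
    field_simp
    ring
  have hsum : Tendsto (fun x => ∑ i ∈ Finset.range r, ((y x - p) / (x - p)) ^ i) (𝓝[≠] p)
      (𝓝 (r : ℝ)) := by
    have : Tendsto (fun x => ∑ i ∈ Finset.range r, ((y x - p) / (x - p)) ^ i) (𝓝[≠] p)
      (𝓝 (∑ i ∈ Finset.range r, (1 : ℝ) ^ i)) := tendsto_finsetSum _ fun i _ => hrat.pow i
    simpa using this
  have huy : Tendsto (fun x => u (y x)) (𝓝[≠] p) (𝓝 (u p)) := hu.continuousAt.tendsto.comp hy
  have hfirst := (hw.mul hsum).mul huy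
  have hsecond : Tendsto (fun x => (u (y x) - u x) / (x - p) ^ (s - 1)) (𝓝[≠] p) (𝓝 0) := by
    have hs' : HasStrictDerivAt u (deriv u p) p := hu.hasStrictDerivAt
    have hO := hs'.isBigO_sub
    have ht : Tendsto (fun x : ℝ => (y x, x)) (𝓝[≠] p) (𝓝 (p, p)) := by
      rw [nhds_prod_eq]
      exact Tendsto.prodMk hy (tendsto_id.mono_left nhdsWithin_le_nhds)
    have hO2 := hO.comp_tendsto ht
    have hOy : (fun x => y x - x) =O[𝓝[≠] p] (fun x => (x - p) ^ s) := by
      have := hw.isBigO_one ℝ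
      have h2 := this.mul (isBigO_refl (fun x : ℝ => (x - p) ^ s) (𝓝[≠] p))
      refine (h2.congr' ?_ ?_)
      · filter_upwards [self_mem_nhdsWithin] with x hne
        have h0 : (x - p) ^ s ≠ 0 := pow_ne_zero _ (sub_ne_zero.2 hne)
        field_simp
      · filter_upwards with x
        ring
    have hO3 : (fun x => u (y x) - u x) =O[𝓝[≠] p] (fun x => (x - p) ^ s) := by
      have : (fun x => u (y x) - u x) =O[𝓝[≠] p] (fun x => y x - x) := by
        simpa [Function.comp_def] using hO2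
      exact this.trans hOy
    have ho : (fun x : ℝ => (x - p) ^ s) =o[𝓝[≠] p] (fun x => (x - p) ^ (s - 1)) := by
      rw [isLittleO_iff_tendsto']
      · refine (tendsto_sub_pow (p := p) (k := 1) one_ne_zero).congr' ?_
        filter_upwards [self_mem_nhdsWithin] with x hne
        have h0 : x - p ≠ 0 := sub_ne_zero.2 hne
        have h2 : (x - p) ^ s = (x - p) ^ (s - 1) * (x - p) := by
          rw [← pow_succ]; congr 1; omega
        rw [h2]
        field_simp
      · filter_upwards [self_mem_nhdsWithin] with x hne h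
        exact absurd h (pow_ne_zero _ (sub_ne_zero.2 hne))
    exact (hO3.trans_isLittleO ho).tendsto_div_nhds_zero
  have hall := hfirst.add hsecond
  have hlim : w * (r : ℝ) * u p + 0 = r * u p * w := by ring
  rw [hlim] at hall
  refine hall.congr' ?_
  filter_upwards [self_mem_nhdsWithin, hN.filter_mono nhdsWithin_le_nhds, hy.eventually hN]
    with x hne hx hyx
  have h0 : x - p ≠ 0 := sub_ne_zero.2 hne
  rw [hx, hyx]
  have hg : (y x - p) ^ r - (x - p) ^ r =
      (y x - x) * ((x - p) ^ (r - 1) * ∑ i ∈ Finset.range r, ((y x - p) / (x - p)) ^ i) := by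
    have h1 := (Commute.all (y x - p) (x - p)).geom_sum₂_mul r
    rw [← h1, mul_comm]
    congr 1
    · ring
    · rw [Finset.mul_sum]
      refine Finset.sum_congr rfl fun i hi => ?_
      have hi' := Finset.mem_range.1 hi
      have h3 : (x - p) ^ (r - 1) = (x - p) ^ (r - 1 - i) * (x - p) ^ i := by
        rw [← pow_add]; congr 1; omega
      rw [div_pow, h3]
      field_simp
  have e1 : (y x - p) ^ r * u (y x) - (x - p) ^ r * u x =
      ((y x - p) ^ r - (x - p) ^ r) * u (y x) + (x - p) ^ r * (u (y x) - u x) := by ring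
  rw [e1, hg]
  have e2 : (x - p) ^ (r + s - 1) = (x - p) ^ (r - 1) * (x - p) ^ s := by
    rw [← pow_add]; congr 1; omega
  have e3 : (x - p) ^ (r + s - 1) = (x - p) ^ r * (x - p) ^ (s - 1) := by
    rw [← pow_add]; congr 1; omega
  rw [add_div]
  nth_rewrite 1 [e2]
  rw [e3]
  field_simp

/-- leading term of a commutator of two germs tangent to the identity -/
theorem lead_comm {g h : Equiv.Perm ℝ} {p : ℝ} (hg : An g) (hh : An h)
    (hgh : An (h * g)) (hgh' : An (h * g)⁻¹) (hgp : g p = p) (hhp : h p = p)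
    {a b : ℕ} {u v : ℝ → ℝ} (ha : 2 ≤ a) (hb : 2 ≤ b) (hu : Fac g p a u) (hv : Fac h p b v) :
    Lead (g * h * g⁻¹ * h⁻¹) p (a + b - 1) (((a : ℝ) - b) * u p * v p) := by
  have i1 := increment (N := fun x => g x - x) (y := h) (w := v p) (by omega) hb hu.1 hu.2
    (by have := hh.cont.tendsto p; rw [hhp] at this; exact this.mono_left nhdsWithin_le_nhds)
    hv.lead
  have i2 := increment (N := fun x => h x - x) (y := g) (w := u p) (by omega) ha hv.1 hv.2
    (by have := hg.cont.tendsto p; rw [hgp] at this; exact this.mono_left nhdsWithin_le_nhds)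
    hu.lead
  rw [show b + a - 1 = a + b - 1 by omega] at i2
  have i3 := i1.sub i2
  have hT : Tendsto (fun x => (g (h x) - h (g x)) / (x - p) ^ (a + b - 1)) (𝓝[≠] p)
      (𝓝 (((a : ℝ) - b) * u p * v p)) := by
    have e : (a : ℝ) * u p * v p - b * v p * u p = ((a : ℝ) - b) * u p * v p := by ring
    rw [← e]
    refine i3.congr' ?_
    filter_upwards with x
    ring
  have h6 := change_var hgh hgh' (by rw [Equiv.Perm.mul_apply, hgp, hhp]) hT
  have hd : deriv (⇑(h * g)) p = 1 := by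
    rw [deriv_mul hh hg hgp, hu.lead.deriv_eq_one hg hgp ha, hv.lead.deriv_eq_one hh hhp hb, one_mul]
  rw [hd, one_pow, div_one] at h6
  refine h6.congr' ?_
  filter_upwards with y
  simp only [mul_inv_rev, Equiv.Perm.mul_apply, ap_inv]

end Pool.Agent.Helper43.Tits
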