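import Pool.Agent.Helper43.Tits.CaseFree

set_option autoImplicit false

/-!
Groups of increasing analytic bijections without ping-pong pairs (relative to a central
fixed point free subgroup) are abelian-by-cyclic.
-/

namespace Pool.Agent.Helper43.Tits

open Set Filter Topology

theorem inj_mod {b : Equiv.Perm ℝ} (hb : StrictMono b) (hpos : ∀ x, x < b x) {u w : ℝ}
    (huw : w < b u) {m : ℤ} {x : ℝ} (hx : x ∈ Icc u w) (hmx : (b ^ m) x ∈ Icc u w) : m = 0 := by
  by_contra hm
  rcases lt_or_gt_of_ne hm with h | h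
  · -- m ≤ -1
    have h1 : (b ^ (m + 1)) x ≤ x := by
      have := (zpow_iter_strictMono hb (hpos x)).monotone (show m + 1 ≤ 0 by omega)
      simpa using this
    have h2 : (b ^ (m + 1)) x = b ((b ^ m) x) := by
      rw [add_comm, zpow_add, zpow_one, Equiv.Perm.mul_apply]
    rw [h2] at h1
    have h3 := hb.monotone hmx.1
    linarith [hx.2]
  · have h1 : b x ≤ (b ^ m) x := by
      have := (zpow_iter_strictMono hb (hpos x)).monotone (show 1 ≤ m by omega)
      simpa using this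
    have h2 := hb.monotone hx.1
    linarith [hmx.2]

/-- Kernel condition: trivial, or contained in the group generated by a central fixed point
free element. -/
def KerOK (G : Subgroup (Equiv.Perm ℝ)) (S : Equiv.Perm ℝ → Prop) : Prop :=
  (∀ z, S z → z = 1) ∨ ∃ b ∈ G, (∀ x, b x ≠ x) ∧ (∀ g ∈ G, g * b = b * g) ∧
    ∀ z, S z → ∃ m : ℤ, z = b ^ m

/-- no ping-pong pair relative to `S` -/
def NoPP (G : Subgroup (Equiv.Perm ℝ)) (S : Equiv.Perm ℝ → Prop) : Prop :=
  ∀ (f : Fin 2 → Equiv.Perm ℝ) (I : Set ℝ) (u : ℝ), (∀ i, f i ∈ G) → u ∈ I →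
    (∀ i, ∀ x ∈ I, f i x ∈ I) → (∀ i j, i ≠ j → ∀ x ∈ I, ∀ y ∈ I, f i x ≠ f j y) →
    (∀ z, S z → ∀ x ∈ I, z x ∈ I → z = 1) → False

/-- central fixed point free element can be taken positive -/
theorem KerOK.pos {G : Subgroup (Equiv.Perm ℝ)} {S : Equiv.Perm ℝ → Prop} (hG : AnGrp G)
    (h : KerOK G S) : (∀ z, S z → z = 1) ∨ ∃ b ∈ G, (∀ x, x < b x) ∧ (∀ g ∈ G, g * b = b * g) ∧
    ∀ z, S z → ∃ m : ℤ, z = b ^ m := by
  rcases h with h | ⟨b, hb, hbf, hcen, hS⟩
  · exact Or.inl h
  · right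
    rcases lt_or_gt_of_ne (hbf 0) with h0 | h0
    · refine ⟨b⁻¹, G.inv_mem hb, ?_, fun g hg => ?_, fun z hz => ?_⟩
      · have h1 : 0 < b⁻¹ 0 := by
          have := inv_strictMono (hG b hb).2 h0
          rwa [inv_ap] at this
        exact free_pos (hG _ (G.inv_mem hb)).cont (inv_free hbf) h1
      · have : Commute g b := hcen g hg
        exact this.inv_right.eq
      · obtain ⟨m, hm⟩ := hS z hz
        exact ⟨-m, by rw [hm, zpow_neg, inv_zpow, inv_inv]⟩
    · exact ⟨b, hb, free_pos (hG b hb).cont hbf h0, hcen, hS⟩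

theorem star_right {G : Subgroup (Equiv.Perm ℝ)} {S : Equiv.Perm ℝ → Prop} (hG : AnGrp G)
    (hS : KerOK G S) (hN : NoPP G S) {g f : Equiv.Perm ℝ} (hg : g ∈ G) (hf : f ∈ G) {u w : ℝ}
    (hgu : g u = u) (hgx : ∀ x, u < x → x ≤ w → g x < x) (h1 : u < f u) (h2 : f u < w) :
    False := by
  have huw : u < w := h1.trans h2
  have hgm := (hG g hg).2
  have hfm := (hG f hf).2
  have hlow : ∀ n : ℕ, u ≤ (g ^ n) w := fun n => by
    have := (pow_strictMono hgm n).monotone huw.le
    rwa [pow_fix hgu] at this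
  obtain ⟨L, hL1, hL2, hL3, hlim⟩ := iter_limit_down hgm (hG g hg).cont (hgx w huw le_rfl) hlow
  have hLu : L = u := by
    rcases eq_or_lt_of_le hL2 with h | h
    · exact h.symm
    · have := hgx L h hL1.le
      linarith
  rw [hLu] at hlim
  have e1 := hlim.eventually (gt_mem_nhds h1)
  have e2 : Tendsto (fun n : ℕ => f ((g ^ n) w)) atTop (𝓝 (f u)) :=
    ((hG f hf).cont.tendsto u).comp hlim
  obtain ⟨N, hN1, hN2⟩ := (e1.and (e2.eventually (gt_mem_nhds h2))).exists
  have hgN := pow_strictMono hgm N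
  refine hN ![g ^ N, f * g ^ N] (Icc u w) u ?_ ⟨le_rfl, huw.le⟩ ?_ ?_ ?_
  · intro i
    fin_cases i
    · exact G.pow_mem hg N
    · exact G.mul_mem hf (G.pow_mem hg N)
  · have ka : ∀ x ∈ Icc u w, (g ^ N) x ∈ Icc u w := fun x hx => by
      have a1 := hgN.monotone hx.1
      have a2 := hgN.monotone hx.2
      rw [pow_fix hgu] at a1
      exact ⟨a1, by linarith⟩
    have kb : ∀ x ∈ Icc u w, (f * g ^ N) x ∈ Icc u w := fun x hx => by
      have a1 := hgN.monotone hx.1
      have a2 := hgN.monotone hx.2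
      rw [pow_fix hgu] at a1
      have b1 := hfm.monotone a1
      have b2 := hfm.monotone a2
      rw [Equiv.Perm.mul_apply]
      exact ⟨by linarith, by linarith⟩
    intro i
    fin_cases i
    · exact ka
    · exact kb
  · have key : ∀ x ∈ Icc u w, ∀ y ∈ Icc u w, (g ^ N) x ≠ (f * g ^ N) y := by
      intro x hx y hy h
      have a2 := hgN.monotone hx.2
      have a1 := hgN.monotone hy.1
      rw [pow_fix hgu] at a1
      have b1 := hfm.monotone a1
      rw [Equiv.Perm.mul_apply] at h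
      linarith
    intro i j hij
    fin_cases i <;> fin_cases j
    · exact absurd rfl hij
    · exact key
    · exact fun x hx y hy h => key y hy x hx h.symm
    · exact absurd rfl hij
  · rcases hS.pos hG with h | ⟨b, hb, hpos, hcen, hz⟩
    · exact fun z hz _ _ _ => h z hz
    · intro z hzS x hx hzx
      obtain ⟨m, rfl⟩ := hz z hzS
      have hwb : w < b u := by
        by_contra hcon
        push Not at hcon
        have h3 := hgx (b u) (hpos u) hcon
        rw [← Equiv.Perm.mul_apply, hcen g hg, Equiv.Perm.mul_apply, hgu] at h3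
        exact lt_irrefl _ h3
      rw [inj_mod (hG b hb).2 hpos hwb hx hzx, zpow_zero]

theorem star_left {G : Subgroup (Equiv.Perm ℝ)} {S : Equiv.Perm ℝ → Prop} (hG : AnGrp G)
    (hS : KerOK G S) (hN : NoPP G S) {g f : Equiv.Perm ℝ} (hg : g ∈ G) (hf : f ∈ G) {u w : ℝ}
    (hgu : g u = u) (hgx : ∀ x, w ≤ x → x < u → x < g x) (h1 : w < f u) (h2 : f u < u) :
    False := by
  have huw : w < u := h1.trans h2
  have hgm := (hG g hg).2
  have hfm := (hG f hf).2
  have hup : ∀ n : ℕ, (g ^ n) w ≤ u := fun n => by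
    have := (pow_strictMono hgm n).monotone huw.le
    rwa [pow_fix hgu] at this
  obtain ⟨L, hL1, hL2, hL3, hlim⟩ := iter_limit_up hgm (hG g hg).cont (hgx w le_rfl huw) hup
  have hLu : L = u := by
    rcases eq_or_lt_of_le hL2 with h | h
    · exact h
    · have := hgx L hL1.le h
      linarith
  rw [hLu] at hlim
  have e1 := hlim.eventually (lt_mem_nhds h2)
  have e2 : Tendsto (fun n : ℕ => f ((g ^ n) w)) atTop (𝓝 (f u)) :=
    ((hG f hf).cont.tendsto u).comp hlim
  obtain ⟨N, hN1, hN2⟩ := (e1.and (e2.eventually (lt_mem_nhds h1))).exists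
  have hgN := pow_strictMono hgm N
  refine hN ![g ^ N, f * g ^ N] (Icc w u) u ?_ ⟨huw.le, le_rfl⟩ ?_ ?_ ?_
  · intro i
    fin_cases i
    · exact G.pow_mem hg N
    · exact G.mul_mem hf (G.pow_mem hg N)
  · have ka : ∀ x ∈ Icc w u, (g ^ N) x ∈ Icc w u := fun x hx => by
      have a1 := hgN.monotone hx.1
      have a2 := hgN.monotone hx.2
      rw [pow_fix hgu] at a2
      exact ⟨by linarith, a2⟩
    have kb : ∀ x ∈ Icc w u, (f * g ^ N) x ∈ Icc w u := fun x hx => by
      have a1 := hgN.monotone hx.1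
      have a2 := hgN.monotone hx.2
      rw [pow_fix hgu] at a2
      have b1 := hfm.monotone a1
      have b2 := hfm.monotone a2
      rw [Equiv.Perm.mul_apply]
      exact ⟨by linarith, by linarith⟩
    intro i
    fin_cases i
    · exact ka
    · exact kb
  · have key : ∀ x ∈ Icc w u, ∀ y ∈ Icc w u, (g ^ N) x ≠ (f * g ^ N) y := by
      intro x hx y hy h
      have a1 := hgN.monotone hx.1
      have a2 := hgN.monotone hy.2
      rw [pow_fix hgu] at a2
      have b2 := hfm.monotone a2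
      rw [Equiv.Perm.mul_apply] at h
      linarith
    intro i j hij
    fin_cases i <;> fin_cases j
    · exact absurd rfl hij
    · exact key
    · exact fun x hx y hy h => key y hy x hx h.symm
    · exact absurd rfl hij
  · rcases hS.pos hG with h | ⟨b, hb, hpos, hcen, hz⟩
    · exact fun z hz _ _ _ => h z hz
    · intro z hzS x hx hzx
      obtain ⟨m, rfl⟩ := hz z hzS
      have hwb : u < b w := by
        by_contra hcon
        push Not at hcon
        have hbm := (hG b hb).2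
        have h4 : w ≤ b⁻¹ u := by
          have := (inv_strictMono hbm).monotone hcon
          rwa [inv_ap] at this
        have h5 : b⁻¹ u < u := by
          have := inv_strictMono hbm (hpos u)
          rwa [inv_ap] at this
        have h3 := hgx (b⁻¹ u) h4 h5
        have hc : Commute g b := hcen g hg
        rw [← Equiv.Perm.mul_apply, hc.inv_right.eq, Equiv.Perm.mul_apply, hgu] at h3
        exact lt_irrefl _ h3
      rw [inj_mod (hG b hb).2 hpos hwb hx hzx, zpow_zero]

theorem exists_max_of_disc {S F : Set ℝ} (hF : Disc F) (hSF : S ⊆ F) (hne : S.Nonempty)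
    (hbd : BddAbove S) : ∃ s ∈ S, ∀ t ∈ S, t ≤ s := by
  obtain ⟨ε, hε, hx⟩ := hF (sSup S)
  obtain ⟨s, hs, hlt⟩ := exists_lt_of_lt_csSup hne (show sSup S - ε < sSup S by linarith)
  have hle : s ≤ sSup S := le_csSup hbd hs
  have h1 := hx s (hSF hs) (by rw [abs_lt]; constructor <;> linarith)
  exact ⟨s, hs, fun t ht => h1 ▸ le_csSup hbd ht⟩

/-- Fixed point sets are invariant. -/
theorem lemmaA {G : Subgroup (Equiv.Perm ℝ)} {S : Equiv.Perm ℝ → Prop} (hG : AnGrp G)
    (hS : KerOK G S) (hN : NoPP G S) {h g : Equiv.Perm ℝ} (hh : h ∈ G) (hg : g ∈ G) (hh1 : h ≠ 1)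
    {q : ℝ} (hq : h q = q) : h (g q) = g q := by
  by_contra hcon
  have hhA := hG h hh
  have hh'G : g⁻¹ * h * g ∈ G := G.mul_mem (G.mul_mem (G.inv_mem hg) hh) hg
  set h' := g⁻¹ * h * g with hh'
  have hh'A := hG h' hh'G
  have hh'1 : h' ≠ 1 := fun e => hh1 (by
    have : h = g * h' * g⁻¹ := by rw [hh']; group
    rw [this, e]; group)
  have hq' : h' q ≠ q := by
    intro e
    apply hcon
    rw [hh', Equiv.Perm.mul_apply, Equiv.Perm.mul_apply, Equiv.Perm.inv_eq_iff_eq] at e
    exact e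
  have hr0 : h' (g⁻¹ q) = g⁻¹ q := by
    rw [hh', Equiv.Perm.mul_apply, Equiv.Perm.mul_apply, ap_inv, hq]
  have hne : g⁻¹ q ≠ q := fun e => hq' (e ▸ hr0)
  have hFh := disc_fix hhA hh1
  have hFh' := disc_fix hh'A hh'1
  rcases lt_or_gt_of_ne hne with hlt | hlt
  · -- fixed point of h' to the left of q
    obtain ⟨r, ⟨hr1, hr2⟩, hrmax⟩ := exists_max_of_disc hFh' (S := {y | h' y = y ∧ y ≤ q})
      (fun y hy => hy.1) ⟨g⁻¹ q, hr0, hlt.le⟩ ⟨q, fun y hy => hy.2⟩
    have hrq : r < q := lt_of_le_of_ne hr2 (fun e => hq' (e ▸ hr1))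
    obtain ⟨f1, ⟨hf1, hf2⟩, hfmin⟩ := exists_min_of_disc hFh (S := {y | h y = y ∧ r < y})
      (fun y hy => hy.1) ⟨q, hq, hrq⟩ ⟨r, fun y hy => hy.2.le⟩
    have hf1q : f1 ≤ q := hfmin q ⟨hq, hrq⟩
    have hf1' : h' f1 ≠ f1 := by
      intro e
      have := hrmax f1 ⟨e, hf1q⟩
      linarith
    -- k f1 < f1
    obtain ⟨k, hk, hkr, hkf⟩ : ∃ k ∈ G, k r = r ∧ k f1 < f1 := by
      rcases lt_or_gt_of_ne hf1' with h3 | h3
      · exact ⟨h', hh'G, hr1, h3⟩
      · refine ⟨h'⁻¹, G.inv_mem hh'G, inv_fix hr1, ?_⟩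
        have := inv_strictMono hh'A.2 h3
        rwa [inv_ap] at this
    have hrk : r < k f1 := by
      have := (hG k hk).2 hf2
      rwa [hkr] at this
    set w := (r + k f1) / 2 with hw
    have hw1 : r < w := by rw [hw]; linarith
    have hw2 : w < k f1 := by rw [hw]; linarith
    have hnofix : ∀ x, w ≤ x → x < f1 → h x ≠ x := by
      intro x hx1 hx2 e
      have := hfmin x ⟨e, by linarith⟩
      linarith
    have hwf : w < f1 := hw2.trans hkf
    rcases lt_or_gt_of_ne (hnofix w le_rfl hwf) with h3 | h3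
    · -- h x < x : use h⁻¹
      refine star_left hG hS hN (G.inv_mem hh) hk (inv_fix hf1) (fun x hx1 hx2 => ?_) hw2 hkf
      have hx3 : ¬ (x < h x) := by
        have := sign_const hhA.cont (x := w) (y := x) (fun z hz => hnofix z
          (by rw [uIcc_of_le hx1] at hz; exact hz.1)
          (by rw [uIcc_of_le hx1] at hz; linarith [hz.2]))
        rw [← this]; linarith
      have hx4 : h x < x := lt_of_le_of_ne (not_lt.1 hx3) (hnofix x hx1 hx2)
      have := inv_strictMono hhA.2 hx4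
      rwa [inv_ap] at this
    · refine star_left hG hS hN hh hk hf1 (fun x hx1 hx2 => ?_) hw2 hkf
      exact (sign_const hhA.cont (x := w) (y := x) (fun z hz => hnofix z
          (by rw [uIcc_of_le hx1] at hz; exact hz.1)
          (by rw [uIcc_of_le hx1] at hz; linarith [hz.2]))).1 h3
  · -- fixed point of h' to the right of q
    obtain ⟨r, ⟨hr1, hr2⟩, hrmin⟩ := exists_min_of_disc hFh' (S := {y | h' y = y ∧ q ≤ y})
      (fun y hy => hy.1) ⟨g⁻¹ q, hr0, hlt.le⟩ ⟨q, fun y hy => hy.2⟩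
    have hrq : q < r := lt_of_le_of_ne hr2 (fun e => hq' (e ▸ hr1))
    obtain ⟨f1, ⟨hf1, hf2⟩, hfmax⟩ := exists_max_of_disc hFh (S := {y | h y = y ∧ y < r})
      (fun y hy => hy.1) ⟨q, hq, hrq⟩ ⟨r, fun y hy => hy.2.le⟩
    have hf1q : q ≤ f1 := hfmax q ⟨hq, hrq⟩
    have hf1' : h' f1 ≠ f1 := by
      intro e
      have := hrmin f1 ⟨e, hf1q⟩
      linarith
    obtain ⟨k, hk, hkr, hkf⟩ : ∃ k ∈ G, k r = r ∧ f1 < k f1 := by
      rcases lt_or_gt_of_ne hf1' with h3 | h3
      · refine ⟨h'⁻¹, G.inv_mem hh'G, inv_fix hr1, ?_⟩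
        have := inv_strictMono hh'A.2 h3
        rwa [inv_ap] at this
      · exact ⟨h', hh'G, hr1, h3⟩
    have hrk : k f1 < r := by
      have := (hG k hk).2 hf2
      rwa [hkr] at this
    set w := (r + k f1) / 2 with hw
    have hw1 : w < r := by rw [hw]; linarith
    have hw2 : k f1 < w := by rw [hw]; linarith
    have hnofix : ∀ x, x ≤ w → f1 < x → h x ≠ x := by
      intro x hx1 hx2 e
      have := hfmax x ⟨e, by linarith⟩
      linarith
    have hwf : f1 < w := hkf.trans hw2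
    rcases lt_or_gt_of_ne (hnofix w le_rfl hwf) with h3 | h3
    · refine star_right hG hS hN hh hk hf1 (fun x hx1 hx2 => ?_) hkf hw2
      have hx3 : ¬ (x < h x) := by
        have := sign_const hhA.cont (x := x) (y := w) (fun z hz => hnofix z
          (by rw [uIcc_of_le hx2] at hz; exact hz.2)
          (by rw [uIcc_of_le hx2] at hz; linarith [hz.1]))
        rw [this]; linarith
      exact lt_of_le_of_ne (not_lt.1 hx3) (hnofix x hx2 hx1)
    · refine star_right hG hS hN (G.inv_mem hh) hk (inv_fix hf1) (fun x hx1 hx2 => ?_) hkf hw2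
      have hx4 : x < h x := (sign_const hhA.cont (x := x) (y := w) (fun z hz => hnofix z
          (by rw [uIcc_of_le hx2] at hz; exact hz.2)
          (by rw [uIcc_of_le hx2] at hz; linarith [hz.1]))).2 h3
      have := inv_strictMono hhA.2 hx4
      rwa [inv_ap] at this

/-- The base case: no free subsemigroups. -/
theorem nofree_metab {G : Subgroup (Equiv.Perm ℝ)} {S : Equiv.Perm ℝ → Prop} (hG : AnGrp G)
    (hS : KerOK G S) (hN : NoPP G S) : Metab G := by
  by_cases hfree : ∀ h ∈ G, h ≠ 1 → ∀ x, h x ≠ x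
  · have hc := free_comm hG 0 (fun h hh h1 x _ _ => hfree h hh h1 x)
    intro a ha b hb c hc' d hd
    exact hc _ (commG ha hb) _ (commG hc' hd)
  · push Not at hfree
    obtain ⟨h0, hh0, h01, q0, hq0⟩ := hfree
    set F : Set ℝ := {x | h0 x = x} with hFdef
    have hFd : Disc F := disc_fix (hG h0 hh0) h01
    have hinv : ∀ g ∈ G, ∀ y ∈ F, g y ∈ F := fun g hg y hy => lemmaA hG hS hN hh0 hg h01 hy
    have hFix : ∀ h ∈ G, h ≠ 1 → h q0 = q0 → ∀ x, h x = x → x ∈ F := by
      intro h hh hh1 hhq x hx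
      exact fix_of_inv (disc_fix (hG h hh) hh1) (hG h0 hh0).2
        (fun y hy => lemmaA hG hS hN hh hh0 hh1 hy)
        (fun y hy => lemmaA hG hS hN hh (G.inv_mem hh0) hh1 hy) hq0 hx
    have hfixG : ∀ g ∈ G, g q0 = q0 → ∀ q ∈ F, g q = q := by
      intro g hg hgp q hq
      exact fix_of_inv hFd (hG g hg).2 (hinv g hg) (hinv g⁻¹ (G.inv_mem hg)) hgp hq
    have hcfix : ∀ a ∈ G, ∀ b ∈ G, (a * b * a⁻¹ * b⁻¹) q0 = q0 := by
      intro a ha b hb
      have h1 := comm_on_disc hG hFd hinv ha hb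
        (p := a⁻¹ (b⁻¹ q0)) (hinv _ (G.inv_mem ha) _ (hinv _ (G.inv_mem hb) _ hq0))
      simp only [Equiv.Perm.mul_apply]
      rw [h1, ap_inv, ap_inv]
    let H : Subgroup (Equiv.Perm ℝ) :=
      { carrier := {a | a ∈ G ∧ a q0 = q0}
        mul_mem' := fun {a b} ha hb => ⟨G.mul_mem ha.1 hb.1, by
          rw [Equiv.Perm.mul_apply, hb.2, ha.2]⟩
        one_mem' := ⟨G.one_mem, by simp⟩
        inv_mem' := fun {a} ha => ⟨G.inv_mem ha.1, inv_fix ha.2⟩ }
    obtain ⟨x0, hx0⟩ : ∃ x0, x0 ∉ F := by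
      by_contra hcon
      push Not at hcon
      exact h01 (by ext x; exact hcon x)
    have hc := free_comm (H := H) (fun g hg => hG g hg.1) x0 (by
      rintro h ⟨hh, hhq⟩ h1 x ⟨g1, ⟨hg1, hg1q⟩, hle1⟩ ⟨g2, ⟨hg2, hg2q⟩, hle2⟩ hx
      have hxF := hFix h hh h1 hhq x hx
      have e1 := hfixG g1 hg1 hg1q x hxF
      have e2 := hfixG g2 hg2 hg2q x hxF
      rw [← e1] at hle1
      rw [← e2] at hle2
      have k1 := (hG g1 hg1).2.le_iff_le.1 hle1
      have k2 := (hG g2 hg2).2.le_iff_le.1 hle2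
      exact hx0 ((le_antisymm k1 k2) ▸ hxF))
    intro a ha b hb c hc' d hd
    exact hc _ ⟨commG ha hb, hcfix a ha b hb⟩ _ ⟨commG hc' hd, hcfix c hc' d hd⟩

end Pool.Agent.Helper43.Tits
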