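import Pool.Agent.Helper43.Tits.Dyn2
import Pool.Agent.Helper43.Tits.Germ

set_option autoImplicit false

/-!
Groups of increasing analytic bijections with a non-trivial abelian normal subgroup.
-/

namespace Pool.Agent.Helper43.Tits

open Set Filter Topology

/-- commutators commute with each other -/
def Metab (G : Subgroup (Equiv.Perm ℝ)) : Prop :=
  ∀ a ∈ G, ∀ b ∈ G, ∀ c ∈ G, ∀ d ∈ G,
    (a * b * a⁻¹ * b⁻¹) * (c * d * c⁻¹ * d⁻¹) = (c * d * c⁻¹ * d⁻¹) * (a * b * a⁻¹ * b⁻¹)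

theorem commG {G : Subgroup (Equiv.Perm ℝ)} {a b : Equiv.Perm ℝ} (ha : a ∈ G) (hb : b ∈ G) :
    a * b * a⁻¹ * b⁻¹ ∈ G := G.mul_mem (G.mul_mem (G.mul_mem ha hb) (G.inv_mem ha)) (G.inv_mem hb)

/-- commuting elements with fixed points have the same fixed points -/
theorem commuting_fix {a b : Equiv.Perm ℝ} (ha : An a) (hb : StrictMono b)
    (hab : a * b = b * a) (h1 : a ≠ 1) {q : ℝ} (hq : b q = q) {x : ℝ} (hx : a x = x) :
    b x = x := by
  refine fix_of_inv (disc_fix ha h1) hb ?_ ?_ hq hx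
  · intro y hy
    show a (b y) = b y
    rw [← Equiv.Perm.mul_apply, hab, Equiv.Perm.mul_apply]
    exact congrArg b hy
  · intro y hy
    show a (b⁻¹ y) = b⁻¹ y
    have : a * b⁻¹ = b⁻¹ * a := by
      have h : Commute a b := hab
      exact h.inv_right.eq
    rw [← Equiv.Perm.mul_apply, this, Equiv.Perm.mul_apply]
    exact congrArg (⇑b⁻¹) hy

theorem pow_eq_one_pos {μ : ℝ} (hμ : 0 < μ) {k : ℕ} (hk : k ≠ 0) (h : μ ^ k = 1) : μ = 1 :=
  (pow_eq_one_iff_of_nonneg hμ.le hk).1 h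

theorem eq_one_of_scale {μ c : ℝ} (hμ : 0 < μ) (hc : c ≠ 0) {r : ℕ} (hr : 2 ≤ r)
    (h : μ * c / μ ^ r = c) : μ = 1 := by
  have h1 : μ ^ r = μ * μ ^ (r - 1) := by rw [← pow_succ']; congr 1; omega
  rw [h1] at h
  have h2 : μ ^ (r - 1) = 1 := by
    have h3 : μ ^ (r - 1) ≠ 0 := pow_ne_zero _ hμ.ne'
    field_simp at h
    nlinarith [h]
  exact pow_eq_one_pos hμ (by omega) h2

/-- an element tangent to the identity commuting with a hyperbolic element is trivial -/
theorem claimX {n m : Equiv.Perm ℝ} {p : ℝ} (hn : An n) (hn' : An n⁻¹) (hm : An m)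
    (hnp : n p = p) (hmp : m p = p) (hcomm : n * m = m * n) (hnd : deriv n p ≠ 1)
    (hmd : deriv m p = 1) : m = 1 := by
  by_contra h1
  obtain ⟨r, hr, u, hu, hu0⟩ := exists_fac hm h1 hmp
  have hr2 := two_le_of_deriv hm hmp hu.lead hu0 hr hmd
  have hc := lead_conj hn hn' hm hnp hmp hu.lead
  rw [hcomm, mul_inv_cancel_right] at hc
  exact hnd (eq_one_of_scale (deriv_pos hn hn' hnp) hu0 hr2 (hc.unique hu.lead))

/-- commuting non-trivial elements have the same order of contact -/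
theorem order_eq {n m : Equiv.Perm ℝ} {p : ℝ} (hn : An n) (hn' : An n⁻¹) (hm : An m)
    (hm' : An m⁻¹) (hmn : An (m * n)) (hmn' : An (m * n)⁻¹)
    (hnp : n p = p) (hmp : m p = p) (hcomm : n * m = m * n) (hn1 : n ≠ 1) (hm1 : m ≠ 1)
    {r s : ℕ} {u v : ℝ → ℝ} (hr : 1 ≤ r) (hs : 1 ≤ s) (hu : Fac n p r u) (hv : Fac m p s v)
    (hu0 : u p ≠ 0) (hv0 : v p ≠ 0) : r = s := by
  by_cases dn : deriv n p = 1
  · by_cases dm : deriv m p = 1
    · have hr2 := two_le_of_deriv hn hnp hu.lead hu0 hr dn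
      have hs2 := two_le_of_deriv hm hmp hv.lead hv0 hs dm
      have hc := lead_comm hn hm hmn hmn' hnp hmp hr2 hs2 hu hv
      have h1 : n * m * n⁻¹ * m⁻¹ = 1 := by rw [hcomm]; group
      rw [h1] at hc
      have h2 := hc.unique (lead_id p _)
      have h3 : (r : ℝ) - s = 0 := by
        rcases mul_eq_zero.1 h2 with h4 | h4
        · rcases mul_eq_zero.1 h4 with h5 | h5
          · exact h5
          · exact absurd h5 hu0
        · exact absurd h4 hv0
      have : (r : ℝ) = s := by linarith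
      exact_mod_cast this
    · exact absurd (claimX hm hm' hn hmp hnp hcomm.symm dm dn) hn1
  · by_cases dm : deriv m p = 1
    · exact absurd (claimX hn hn' hm hnp hmp hcomm dn dm) hm1
    · have h1 := hu.lead.order_unique (lead_one hn hnp) hu0 (sub_ne_zero.2 dn)
      have h2 := hv.lead.order_unique (lead_one hm hmp) hv0 (sub_ne_zero.2 dm)
      rw [h1, h2]

/-- the product of displacements of two commuting maps does not change sign -/
theorem sign_consistent {n m : Equiv.Perm ℝ} (hn : An n) (hn' : An n⁻¹) (hm : An m)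
    (hm' : An m⁻¹) (hmn : An (m * n)) (hmn' : An (m * n)⁻¹) (hcomm : n * m = m * n)
    (hn1 : n ≠ 1) (hm1 : m ≠ 1) (hF : ∀ x, n x = x ↔ m x = x) :
    (∀ x, n x ≠ x → 0 < (n x - x) * (m x - x)) ∨ (∀ x, n x ≠ x → (n x - x) * (m x - x) < 0) := by
  set Q : ℝ → ℝ := fun x => (n x - x) * (m x - x) with hQ
  have hQc : Continuous Q := (hn.cont.sub continuous_id).mul (hm.cont.sub continuous_id)
  have loc : ∀ q, (∀ᶠ x in 𝓝[≠] q, 0 < Q x) ∨ (∀ᶠ x in 𝓝[≠] q, Q x < 0) := by
    intro q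
    by_cases hq : n q = q
    · have hq' := (hF q).1 hq
      obtain ⟨r, hr, u, hu, hu0⟩ := exists_fac hn hn1 hq
      obtain ⟨s, hs, v, hv, hv0⟩ := exists_fac hm hm1 hq'
      have hrs := order_eq hn hn' hm hm' hmn hmn' hq hq' hcomm hn1 hm1 hr hs hu hv hu0 hv0
      subst hrs
      have hl := hu.lead.mul hv.lead
      have hne : u q * v q ≠ 0 := mul_ne_zero hu0 hv0
      rcases lt_or_gt_of_ne hne with h | h
      · right
        filter_upwards [hl.eventually (gt_mem_nhds h), self_mem_nhdsWithin] with x hx hxq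
        have h0 : x - q ≠ 0 := sub_ne_zero.2 hxq
        have h1 : 0 < (x - q) ^ r * (x - q) ^ r := by
          have : (x - q) ^ r ≠ 0 := pow_ne_zero _ h0
          exact mul_self_pos.2 this
        rw [div_mul_div_comm] at hx
        have := (div_neg_iff.1 hx)
        rcases this with ⟨_, h3⟩ | ⟨h3, _⟩
        · exact absurd h3 (not_lt.2 h1.le)
        · exact h3
      · left
        filter_upwards [hl.eventually (lt_mem_nhds h), self_mem_nhdsWithin] with x hx hxq
        have h0 : x - q ≠ 0 := sub_ne_zero.2 hxq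
        have h1 : 0 < (x - q) ^ r * (x - q) ^ r := by
          have : (x - q) ^ r ≠ 0 := pow_ne_zero _ h0
          exact mul_self_pos.2 this
        rw [div_mul_div_comm] at hx
        rcases div_pos_iff.1 hx with ⟨h3, _⟩ | ⟨_, h3⟩
        · exact h3
        · exact absurd h3 (not_lt.2 h1.le)
    · have hq' : m q ≠ q := fun h => hq ((hF q).2 h)
      have hne : Q q ≠ 0 := mul_ne_zero (sub_ne_zero.2 hq) (sub_ne_zero.2 hq')
      rcases lt_or_gt_of_ne hne with h | h
      · right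
        exact ((hQc.tendsto q).eventually (gt_mem_nhds h)).filter_mono nhdsWithin_le_nhds
      · left
        exact ((hQc.tendsto q).eventually (lt_mem_nhds h)).filter_mono nhdsWithin_le_nhds
  have hopen : ∀ S : Set ℝ, IsOpen S → IsOpen {q | ∀ᶠ x in 𝓝[≠] q, Q x ∈ S} := by
    intro S hS
    rw [isOpen_iff_mem_nhds]
    intro q hq
    have h1 : ∀ᶠ x in 𝓝 q, x ≠ q → Q x ∈ S := eventually_nhdsWithin_iff.1 hq
    filter_upwards [h1] with y hy
    by_cases hyq : y = q
    · subst hyq; exact hq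
    · exact ((hQc.tendsto y).eventually (hS.mem_nhds (hy hyq))).filter_mono nhdsWithin_le_nhds
  have hU := hopen (Ioi 0) isOpen_Ioi
  have hV := hopen (Iio 0) isOpen_Iio
  simp only [mem_Ioi] at hU
  simp only [mem_Iio] at hV
  have hcompl : {q : ℝ | ∀ᶠ x in 𝓝[≠] q, 0 < Q x}ᶜ = {q | ∀ᶠ x in 𝓝[≠] q, Q x < 0} := by
    ext q
    simp only [mem_compl_iff, mem_ofPred_eq]
    constructor
    · intro h
      rcases loc q with h1 | h1
      · exact absurd h1 h
      · exact h1
    · intro h1 h2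
      obtain ⟨x, hx1, hx2⟩ := (h1.and h2).exists
      linarith
  have hclopen : IsClopen {q : ℝ | ∀ᶠ x in 𝓝[≠] q, 0 < Q x} :=
    ⟨⟨hcompl ▸ hV⟩, hU⟩
  rcases isClopen_iff.1 hclopen with h | h
  · right
    intro x hx
    have hx' : m x ≠ x := fun h => hx ((hF x).2 h)
    have hne : Q x ≠ 0 := mul_ne_zero (sub_ne_zero.2 hx) (sub_ne_zero.2 hx')
    rcases lt_or_gt_of_ne hne with h1 | h1
    · exact h1
    · exfalso
      have h2 : ∀ᶠ y in 𝓝[≠] x, 0 < Q y :=
        ((hQc.tendsto x).eventually (lt_mem_nhds h1)).filter_mono nhdsWithin_le_nhds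
      have : x ∈ ({q : ℝ | ∀ᶠ x in 𝓝[≠] q, 0 < Q x} : Set ℝ) := h2
      rw [h] at this
      exact this
  · left
    intro x hx
    have hx' : m x ≠ x := fun h => hx ((hF x).2 h)
    have hne : Q x ≠ 0 := mul_ne_zero (sub_ne_zero.2 hx) (sub_ne_zero.2 hx')
    rcases lt_or_gt_of_ne hne with h1 | h1
    · exfalso
      have h2 : ∀ᶠ y in 𝓝[≠] x, Q y < 0 :=
        ((hQc.tendsto x).eventually (gt_mem_nhds h1)).filter_mono nhdsWithin_le_nhds
      have h3 : x ∈ ({q : ℝ | ∀ᶠ x in 𝓝[≠] q, 0 < Q x} : Set ℝ) := by rw [h]; exact mem_univ x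
      obtain ⟨y, hy1, hy2⟩ := (h2.and h3).exists
      linarith
    · exact h1

end Pool.Agent.Helper43.Tits
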